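import Pool.Agent.KNM.Defs

/-!
KNM-Factor.  A factorisation of functions becomes a factorisation of polynomials.

PLAN.  Nodes `0, 1, ..., D` (as complex numbers), Lagrange basis `ℓ_s(X)` of degree `≤ D`.  `L l k = ∑ s ≤ D, C (A k (l, s)) * ℓ_s`,
`R k ρ = ∑ s ≤ D, C (B k (s, ρ)) * ℓ_s`.  A polynomial `f` of degree `≤ D` satisfies `f = ∑ s, C (f s) * ℓ_s`
(`Lagrange.eq_interpolate`), so by `hF` (degree `≤ D` in each variable)
`F l x y ρ = ∑ s t, F l s t ρ * ℓ_s(x) * ℓ_t(y) = ∑ k, (∑ s, A k (l,s) ℓ_s(x)) (∑ t, B k (t,ρ) ℓ_t(y))`.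
-/

namespace Pool.Agent.KNM

open Matrix Polynomial Finset

private noncomputable def Factor_l (D s : ℕ) : ℂ[X] :=
  Lagrange.basis (range (D + 1)) (fun i : ℕ => (i : ℂ)) s

private theorem Factor_inj (D : ℕ) :
    Set.InjOn (fun i : ℕ => (i : ℂ)) (range (D + 1) : Finset ℕ) :=
  fun _ _ _ _ h => Nat.cast_injective h

private theorem Factor_deg (D s : ℕ) (hs : s ∈ range (D + 1)) :
    (Factor_l D s).natDegree ≤ D := by
  refine natDegree_le_of_degree_le ?_
  unfold Factor_l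
  rw [Lagrange.degree_basis (Factor_inj D) hs, card_range]
  exact le_of_eq (by norm_num)

private theorem Factor_interp (D : ℕ) (a : ℕ → ℂ) (x : ℂ) :
    ∑ u ∈ range (D + 1), a u * x ^ u =
      ∑ s ∈ range (D + 1), (∑ u ∈ range (D + 1), a u * (s : ℂ) ^ u) * (Factor_l D s).eval x := by
  have h1 : (∑ u ∈ range (D + 1), C (a u) * X ^ u : ℂ[X]) =
      Lagrange.interpolate (range (D + 1)) (fun i : ℕ => (i : ℂ))
        (fun s : ℕ => ∑ u ∈ range (D + 1), a u * (s : ℂ) ^ u) := by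
    refine Lagrange.eq_interpolate_of_eval_eq _ (Factor_inj D) ?_ ?_
    · rw [card_range]
      refine lt_of_le_of_lt (degree_sum_le _ _) ?_
      rw [Finset.sup_lt_iff (WithBot.bot_lt_coe _)]
      intro u hu
      refine lt_of_le_of_lt (degree_C_mul_X_pow_le u (a u)) ?_
      exact_mod_cast mem_range.1 hu
    · intro s _
      simp [eval_finsetSum]
  have h2 := congrArg (eval x) h1
  rw [Lagrange.interpolate_apply, eval_finsetSum, eval_finsetSum] at h2
  simp only [eval_mul, eval_C, eval_pow, eval_X] at h2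
  exact h2

theorem factor {Λ Ρ : Type} (D : ℕ) (c : Λ → ℕ → ℕ → Ρ → ℂ) (F : Λ → ℂ → ℂ → Ρ → ℂ)
    (hF : ∀ l x y ρ, F l x y ρ =
      ∑ u ∈ range (D + 1), ∑ v ∈ range (D + 1), c l u v ρ * x ^ u * y ^ v)
    (r : ℕ) (A : Fin r → Λ × ℂ → ℂ) (B : Fin r → ℂ × Ρ → ℂ)
    (hcut : ∀ l x y ρ, F l x y ρ = ∑ i, A i (l, x) * B i (y, ρ)) :
    ∃ (L : Λ → Fin r → ℂ[X]) (R : Fin r → Ρ → ℂ[X]),
      (∀ l k, (L l k).natDegree ≤ D) ∧ (∀ k ρ, (R k ρ).natDegree ≤ D) ∧
      ∀ l x y ρ, F l x y ρ = ∑ k, (L l k).eval x * (R k ρ).eval y := by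
  refine ⟨fun l k => ∑ s ∈ range (D + 1), C (A k (l, (s : ℂ))) * Factor_l D s,
    fun k ρ => ∑ t ∈ range (D + 1), C (B k ((t : ℂ), ρ)) * Factor_l D t, ?_, ?_, ?_⟩
  · intro l k
    refine natDegree_sum_le_of_forall_le _ _ fun s hs => ?_
    exact (natDegree_C_mul_le _ _).trans (Factor_deg D s hs)
  · intro k ρ
    refine natDegree_sum_le_of_forall_le _ _ fun s hs => ?_
    exact (natDegree_C_mul_le _ _).trans (Factor_deg D s hs)
  · intro l x y ρ
    have h1 : F l x y ρ = ∑ s ∈ range (D + 1), F l s y ρ * (Factor_l D s).eval x := by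
      have h2 := Factor_interp D (fun u => ∑ v ∈ range (D + 1), c l u v ρ * y ^ v) x
      rw [hF]
      have h3 : ∀ z : ℂ, ∑ u ∈ range (D + 1), (∑ v ∈ range (D + 1), c l u v ρ * y ^ v) * z ^ u =
          ∑ u ∈ range (D + 1), ∑ v ∈ range (D + 1), c l u v ρ * z ^ u * y ^ v := by
        intro z
        refine sum_congr rfl fun u _ => ?_
        rw [sum_mul]
        exact sum_congr rfl fun v _ => by ring
      rw [← h3 x, h2]
      refine sum_congr rfl fun s _ => ?_
      rw [h3, hF]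
    have h4 : ∀ s : ℕ, F l s y ρ = ∑ t ∈ range (D + 1), F l s t ρ * (Factor_l D t).eval y := by
      intro s
      have h2 := Factor_interp D (fun v => ∑ u ∈ range (D + 1), c l u v ρ * (s : ℂ) ^ u) y
      rw [hF]
      have h3 : ∀ z : ℂ, ∑ v ∈ range (D + 1), (∑ u ∈ range (D + 1), c l u v ρ * (s : ℂ) ^ u) * z ^ v =
          ∑ u ∈ range (D + 1), ∑ v ∈ range (D + 1), c l u v ρ * (s : ℂ) ^ u * z ^ v := by
        intro z
        rw [sum_comm]
        refine sum_congr rfl fun v _ => ?_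
        rw [sum_mul]
      rw [← h3 y, h2]
      refine sum_congr rfl fun t _ => ?_
      rw [h3, hF]
    rw [h1]
    have h5 : ∀ k, (eval x (∑ s ∈ range (D + 1), C (A k (l, (s : ℂ))) * Factor_l D s)) *
        (eval y (∑ t ∈ range (D + 1), C (B k ((t : ℂ), ρ)) * Factor_l D t)) =
        ∑ s ∈ range (D + 1), ∑ t ∈ range (D + 1),
          A k (l, (s : ℂ)) * B k ((t : ℂ), ρ) * (Factor_l D t).eval y * (Factor_l D s).eval x := by
      intro k
      rw [eval_finsetSum, eval_finsetSum, sum_mul_sum]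
      refine sum_congr rfl fun s _ => sum_congr rfl fun t _ => ?_
      rw [eval_mul, eval_mul, eval_C, eval_C]
      ring
    rw [sum_congr rfl fun k _ => h5 k, sum_comm]
    refine sum_congr rfl fun s _ => ?_
    rw [h4 s, sum_mul, sum_comm]
    refine sum_congr rfl fun t _ => ?_
    rw [hcut, sum_mul, sum_mul]

end Pool.Agent.KNM
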