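import Pool.Agent.KNM.Defs

/-!
KNM-DegDt.  The degree of the determinant polynomial `dt`.
-/

namespace Pool.Agent.KNM

open Matrix Polynomial Finset

private theorem degdt_comp (D : ℕ) (f : ℂ[X]) (α : ℂ) (h : f.natDegree ≤ D) :
    (f.comp (Polynomial.C α * X)).natDegree ≤ D := by
  have h1 : (Polynomial.C α * X : ℂ[X]).natDegree ≤ 1 := by
    simpa using natDegree_C_mul_X_pow_le α 1
  calc (f.comp (Polynomial.C α * X)).natDegree ≤ f.natDegree * (Polynomial.C α * X : ℂ[X]).natDegree :=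
        natDegree_comp_le
    _ ≤ D * 1 := Nat.mul_le_mul h h1
    _ = D := mul_one D

theorem deg_dt {a m : ℕ} (D : ℕ) (L : Matrix (Fin a) (Fin m) ℂ[X])
    (R : Matrix (Fin m) (Fin a) ℂ[X]) (x0 y0 : ℂ) (hL : ∀ i j, (L i j).natDegree ≤ D)
    (hR : ∀ i j, (R i j).natDegree ≤ D) : (dt x0 y0 L R).natDegree ≤ a * (2 * D) := by
  unfold dt
  set M := L.map (fun f => f.comp (Polynomial.C x0 * X)) * R.map (fun f => f.comp (Polynomial.C y0 * X))
    with hM
  have hent : ∀ i j, (M i j).natDegree ≤ 2 * D := by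
    intro i j
    rw [hM, mul_apply]
    refine natDegree_sum_le_of_forall_le _ _ fun k _ => ?_
    refine natDegree_mul_le.trans ?_
    rw [map_apply, map_apply]
    have h1 := degdt_comp D (L i k) x0 (hL i k)
    have h2 := degdt_comp D (R k j) y0 (hR k j)
    omega
  rw [det_apply]
  refine natDegree_sum_le_of_forall_le _ _ fun σ _ => ?_
  refine (natDegree_smul_le _ _).trans ?_
  refine (natDegree_prod_le _ _).trans ?_
  calc ∑ i, (M (σ i) i).natDegree ≤ ∑ _i : Fin a, 2 * D := sum_le_sum fun i _ => hent _ _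
    _ = a * (2 * D) := by simp

end Pool.Agent.KNM
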