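import Pool.Agent.KNM.Defs

/-!
KNM-FoldDiv.  Divisibility by `X ^ p - 1` means that the sums over residue classes vanish.

PLAN.  `X ^ p - 1` divides `X ^ n - X ^ (n % p)` (`n = p * (n / p) + n % p`, `sub_one_dvd`/`sub_dvd_pow_sub_pow`), so it divides
`g = ∑ n ∈ range N, C (c n) * X ^ (n % p)`, `natDegree g < p` (or `degree g < degree (X^p - 1) = p`), so `g = 0`
(`Polynomial.eq_zero_of_dvd_of_degree_lt`) and its coefficient at `r` is the sum.
-/

namespace Pool.Agent.KNM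

open Matrix Polynomial Finset

private theorem FoldDiv_cls (p c : ℕ) : ∃ φ : ℂ[X] →ₗ[ℂ] ℂ,
    (∀ (n : ℕ) (a : ℂ), φ (monomial n a) = if n % p = c then a else 0) ∧ ∀ h : ℂ[X], φ ((X ^ p - 1) * h) = 0 := by
  have h1 : ∀ (n : ℕ) (a : ℂ), Polynomial.lsum (fun n => if n % p = c then (LinearMap.id : ℂ →ₗ[ℂ] ℂ) else 0)
      (monomial n a) = if n % p = c then a else 0 := by
    intro n a
    rw [lsum_apply, sum_monomial_index]
    · split_ifs <;> simp
    · simp
  refine ⟨Polynomial.lsum (fun n => if n % p = c then (LinearMap.id : ℂ →ₗ[ℂ] ℂ) else 0), h1, fun h => ?_⟩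
  induction h using Polynomial.induction_on' with
  | add f g hf hg => rw [mul_add, map_add, hf, hg, add_zero]
  | monomial n a =>
    rw [sub_mul, one_mul, X_pow_mul_monomial, map_sub, h1, h1, Nat.add_mod_right, sub_self]

theorem fold_div (p : ℕ) (hp : 0 < p) (N : ℕ) (c : ℕ → ℂ)
    (h : (X ^ p - 1 : ℂ[X]) ∣ ∑ n ∈ range N, Polynomial.C (c n) * X ^ n) (r : ℕ) :
    ∑ n ∈ (range N).filter (fun n => n % p = r), c n = 0 := by
  obtain ⟨φ, h1, h2⟩ := FoldDiv_cls p r
  obtain ⟨g, hg⟩ := h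
  have h4 : φ (∑ n ∈ range N, Polynomial.C (c n) * X ^ n) = 0 := by
    rw [hg]
    exact h2 g
  rw [map_sum] at h4
  simp only [C_mul_X_pow_eq_monomial, h1] at h4
  rwa [← Finset.sum_filter] at h4

end Pool.Agent.KNM
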