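import Pool.Agent.KNM.Defs

/-!
KNM-LowDiv.  The merging polynomial divides the lowest form.

PLAN.  `L i k = ∑ u, C (coeff u) X^u` etc., so the sum of `Kil` for `(i,j)` is
`∑ u v, C ((cf L u * cf R v) i j) * X^v * q^(u+v) = 0` (`comp` of `X^v` with `X * q` is `X^v q^v`; finite sums up to large bounds).
Terms with `u + v < k` vanish by `Low`, terms with `u + v > k` are divisible by `q^(k+1)`, and the terms with `u + v = k` give
`q^k * ∑ n ∈ range (k+1), C (lt k L R n i j) * X^n`.  Cancel `q^k` (`q ≠ 0`).  The sum over `range N` is the same since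
`lt k L R n = 0` for `n > k` (definition) and for `n ≥ N` (hypothesis).
-/

namespace Pool.Agent.KNM

open Matrix Polynomial Finset

private theorem LowDiv_sc {m k : ℕ} (l r : Fin m → ℂ[X]) (q : ℂ[X]) (hq : q ≠ 0)
    (hord : ∀ u v, u + v < k → ∑ s, (l s).coeff u * (r s).coeff v = 0)
    (hkill : ∑ s, (l s).comp q * (r s).comp (X * q) = 0) :
    q ∣ ∑ n ∈ range (k + 1), monomial n (∑ s, (l s).coeff (k - n) * (r s).coeff n) := by
  obtain ⟨N, hNl, hNr, hNk⟩ : ∃ N : ℕ, (∀ s, (l s).natDegree < N) ∧ (∀ s, (r s).natDegree < N) ∧ k < N := by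
    refine ⟨(∑ s, ((l s).natDegree + (r s).natDegree)) + k + 1, fun s => ?_, fun s => ?_, by omega⟩
    · have := Finset.single_le_sum (f := fun s => (l s).natDegree + (r s).natDegree) (fun _ _ => Nat.zero_le _)
        (Finset.mem_univ s)
      omega
    · have := Finset.single_le_sum (f := fun s => (l s).natDegree + (r s).natDegree) (fun _ _ => Nat.zero_le _)
        (Finset.mem_univ s)
      omega
  set A : ℕ → ℕ → ℂ := fun u v => ∑ s, (l s).coeff u * (r s).coeff v with hA
  have e1 : ∑ s, (l s).comp q * (r s).comp (X * q) =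
      ∑ u ∈ range N, ∑ v ∈ range N, C (A u v) * X ^ v * q ^ (u + v) := by
    have h1 : ∀ s, (l s).comp q * (r s).comp (X * q) =
        ∑ u ∈ range N, ∑ v ∈ range N, C ((l s).coeff u * (r s).coeff v) * X ^ v * q ^ (u + v) := by
      intro s
      rw [Polynomial.comp, Polynomial.comp, eval₂_eq_sum_range' C (hNl s) q, eval₂_eq_sum_range' C (hNr s) (X * q),
        Finset.sum_mul_sum]
      refine Finset.sum_congr rfl fun u _ => Finset.sum_congr rfl fun v _ => ?_
      rw [C_mul, mul_pow, pow_add]
      ring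
    rw [Finset.sum_congr rfl fun s _ => h1 s, Finset.sum_comm]
    refine Finset.sum_congr rfl fun u _ => ?_
    rw [Finset.sum_comm]
    refine Finset.sum_congr rfl fun v _ => ?_
    rw [hA]
    simp only [map_sum, Finset.sum_mul]
  have e2 : ∑ u ∈ range N, ∑ v ∈ range N, C (A u v) * X ^ v * q ^ (u + v) =
      q ^ k * ∑ u ∈ range N, ∑ v ∈ range N, (if k ≤ u + v then C (A u v) * X ^ v * q ^ (u + v - k) else 0) := by
    rw [Finset.mul_sum]
    refine Finset.sum_congr rfl fun u _ => ?_
    rw [Finset.mul_sum]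
    refine Finset.sum_congr rfl fun v _ => ?_
    split_ifs with h
    · have h3 : q ^ (u + v) = q ^ k * q ^ (u + v - k) := by rw [← pow_add]; congr 1; omega
      rw [h3]
      ring
    · have h3 : A u v = 0 := hord u v (by omega)
      rw [h3]
      simp
  have e3 : ∑ u ∈ range N, ∑ v ∈ range N, (if k ≤ u + v then C (A u v) * X ^ v * q ^ (u + v - k) else 0) = 0 := by
    have h4 : q ^ k * ∑ u ∈ range N, ∑ v ∈ range N, (if k ≤ u + v then C (A u v) * X ^ v * q ^ (u + v - k) else 0) =
        0 := by rw [← e2, ← e1, hkill]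
    exact (mul_eq_zero.1 h4).resolve_left (pow_ne_zero k hq)
  have e4 : ∑ n ∈ range (k + 1), monomial n (∑ s, (l s).coeff (k - n) * (r s).coeff n) =
      ∑ u ∈ range N, ∑ v ∈ range N, (if u + v = k then C (A u v) * X ^ v else 0) := by
    rw [Finset.sum_comm]
    have h5 : ∀ v ∈ range N, ∑ u ∈ range N, (if u + v = k then C (A u v) * X ^ v else (0 : ℂ[X])) =
        if v < k + 1 then monomial v (A (k - v) v) else 0 := by
      intro v _
      split_ifs with h
      · rw [Finset.sum_eq_single (k - v)]
        · rw [if_pos (by omega), C_mul_X_pow_eq_monomial]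
        · intro u _ hu
          rw [if_neg (by omega)]
        · intro hu
          exact absurd (Finset.mem_range.2 (by omega)) hu
      · refine Finset.sum_eq_zero fun u _ => ?_
        rw [if_neg (by omega)]
    rw [Finset.sum_congr rfl h5, ← Finset.sum_filter]
    refine Finset.sum_congr ?_ fun n _ => rfl
    ext n
    simp only [Finset.mem_filter, Finset.mem_range]
    omega
  rw [e4]
  have e5 : ∑ u ∈ range N, ∑ v ∈ range N, (if u + v = k then C (A u v) * X ^ v else 0) =
      ∑ u ∈ range N, ∑ v ∈ range N, ((if u + v = k then C (A u v) * X ^ v else 0) -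
        (if k ≤ u + v then C (A u v) * X ^ v * q ^ (u + v - k) else 0)) := by
    simp only [Finset.sum_sub_distrib]
    rw [e3, sub_zero]
  rw [e5]
  refine Finset.dvd_sum fun u _ => Finset.dvd_sum fun v _ => ?_
  rcases lt_trichotomy (u + v) k with h | h | h
  · rw [if_neg (by omega), if_neg (by omega), sub_zero]
    exact dvd_zero q
  · rw [if_pos h, if_pos (by omega), h, Nat.sub_self, pow_zero, mul_one, sub_self]
    exact dvd_zero q
  · rw [if_neg (by omega), if_pos (by omega), zero_sub, dvd_neg]
    exact Dvd.dvd.mul_left (dvd_pow_self q (by omega)) _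

theorem low_div {a m : ℕ} (k : ℕ) (L : Matrix (Fin a) (Fin m) ℂ[X])
    (R : Matrix (Fin m) (Fin a) ℂ[X]) (q : ℂ[X]) (hq : q ≠ 0) (hLow : Low k L R)
    (hKil : Kil q L R) (N : ℕ) (hN : ∀ n, N ≤ n → lt k L R n = 0) (i j : Fin a) :
    q ∣ ∑ n ∈ range N, Polynomial.C (lt k L R n i j) * X ^ n := by
  have h3 := LowDiv_sc (k := k) (fun s => L i s) (fun s => R s j) q hq
    (fun u v huv => by
      have h := congrFun (congrFun (hLow u v huv) i) j
      simpa [cf, Matrix.mul_apply] using h)
    (hKil i j)
  have h4 : ∀ n, n < k + 1 → ∑ s, (L i s).coeff (k - n) * (R s j).coeff n = lt k L R n i j := by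
    intro n hn
    unfold lt
    rw [if_pos (by omega), Matrix.mul_apply]
    rfl
  have h5 : ∑ n ∈ range (k + 1), monomial n (∑ s, (L i s).coeff (k - n) * (R s j).coeff n) =
      ∑ n ∈ range N, Polynomial.C (lt k L R n i j) * X ^ n := by
    have e1 : ∑ n ∈ range (k + 1), monomial n (∑ s, (L i s).coeff (k - n) * (R s j).coeff n) =
        ∑ n ∈ range (k + 1), Polynomial.C (lt k L R n i j) * X ^ n :=
      Finset.sum_congr rfl fun n hn => by rw [h4 n (Finset.mem_range.1 hn), C_mul_X_pow_eq_monomial]
    rw [e1]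
    have e3 : ∑ n ∈ range (k + 1), Polynomial.C (lt k L R n i j) * X ^ n =
        ∑ n ∈ range (max (k + 1) N), Polynomial.C (lt k L R n i j) * (X : ℂ[X]) ^ n := by
      refine Finset.sum_subset (Finset.range_subset_range.2 (le_max_left _ _)) fun n _ hn => ?_
      have h6 : lt k L R n = 0 := by
        unfold lt
        rw [if_neg]
        intro h
        exact hn (Finset.mem_range.2 (by omega))
      rw [h6]
      simp
    have e4 : ∑ n ∈ range N, Polynomial.C (lt k L R n i j) * X ^ n =
        ∑ n ∈ range (max (k + 1) N), Polynomial.C (lt k L R n i j) * (X : ℂ[X]) ^ n := by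
      refine Finset.sum_subset (Finset.range_subset_range.2 (le_max_right _ _)) fun n _ hn => ?_
      have h6 : lt k L R n = 0 := hN n (by
        rw [Finset.mem_range] at hn
        omega)
      rw [h6]
      simp
    rw [e3, e4]
  rw [← h5]
  exact h3

end Pool.Agent.KNM
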