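import Pool.Agent.KNM.Defs

/-!
KNM-RankSum.  The ranks of the components of the lowest form sum to at most the inner dimension.

PLAN.  `W N = ⨆ v < N, range (cf R v).mulVecLin ⊆ (Fin m → ℂ)`.  By induction on `N`:
`∑ n ∈ range N, rank (lt k L R n) ≤ finrank (W N)`.  For `n = N > k` the new rank is `0`.  For `N ≤ k` the map `f = mulVecLin
(cf L (k - N))` kills `range (cf R v)` for `v < N` (`Low`, `(k - N) + v < k`), so it kills `W N`; its restriction to `W (N+1)` has
kernel `⊇ W N` and image `⊇ range (cf L (k-N) * cf R N)`; rank-nullity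
(`Submodule.finrank_map_add_finrank_ker`... or `LinearMap.finrank_range_add_finrank_ker` for `f.domRestrict (W (N+1))`).
Finally `finrank (W N) ≤ m`.
-/

namespace Pool.Agent.KNM

open Matrix Polynomial Finset

/-- the flag -/
private noncomputable def RankSum_W {a m : ℕ} (Rc : ℕ → Matrix (Fin m) (Fin a) ℂ) : ℕ → Submodule ℂ (Fin m → ℂ)
  | 0 => ⊥
  | n + 1 => RankSum_W Rc n ⊔ LinearMap.range (Rc n).mulVecLin

private theorem RankSum_ker {a m k : ℕ} (Lc : ℕ → Matrix (Fin a) (Fin m) ℂ) (Rc : ℕ → Matrix (Fin m) (Fin a) ℂ)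
    (hord : ∀ u v, u + v < k → Lc u * Rc v = 0) (u : ℕ) :
    ∀ n, u + n ≤ k → RankSum_W Rc n ≤ LinearMap.ker (Lc u).mulVecLin
  | 0, _ => bot_le
  | n + 1, h => by
    refine sup_le (RankSum_ker Lc Rc hord u n (by omega)) ?_
    rintro _ ⟨x, rfl⟩
    rw [LinearMap.mem_ker, Matrix.mulVecLin_apply, Matrix.mulVecLin_apply, Matrix.mulVec_mulVec,
      hord u n (by omega), Matrix.zero_mulVec]

private theorem RankSum_rank {a m k : ℕ} (Lc : ℕ → Matrix (Fin a) (Fin m) ℂ) (Rc : ℕ → Matrix (Fin m) (Fin a) ℂ)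
    (hord : ∀ u v, u + v < k → Lc u * Rc v = 0) (n : ℕ) (hn : n ≤ k) :
    (Lc (k - n) * Rc n).rank + Module.finrank ℂ (RankSum_W Rc n) ≤ Module.finrank ℂ (RankSum_W Rc (n + 1)) := by
  have hk := RankSum_ker Lc Rc hord (k - n) n (by omega)
  set g := (Lc (k - n)).mulVecLin with hg
  have h1 := LinearMap.finrank_range_add_finrank_ker (g.domRestrict (RankSum_W Rc (n + 1)))
  have h2 : (Lc (k - n) * Rc n).rank ≤ Module.finrank ℂ (LinearMap.range (g.domRestrict (RankSum_W Rc (n + 1)))) := by
    refine Submodule.finrank_mono ?_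
    rintro _ ⟨x, rfl⟩
    have hm : (Rc n).mulVecLin x ∈ RankSum_W Rc (n + 1) := Submodule.mem_sup_right (LinearMap.mem_range_self _ _)
    refine ⟨⟨(Rc n).mulVecLin x, hm⟩, ?_⟩
    rw [LinearMap.domRestrict_apply, hg]
    show (Lc (k - n)).mulVec ((Rc n).mulVec x) = (Lc (k - n) * Rc n).mulVec x
    rw [Matrix.mulVec_mulVec]
  have hle : RankSum_W Rc n ≤ RankSum_W Rc (n + 1) := le_sup_left
  have h3 : Module.finrank ℂ (RankSum_W Rc n) ≤ Module.finrank ℂ (LinearMap.ker (g.domRestrict (RankSum_W Rc (n + 1)))) := by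
    refine LinearMap.finrank_le_finrank_of_injective
      (f := ((Submodule.inclusion hle).codRestrict (LinearMap.ker (g.domRestrict (RankSum_W Rc (n + 1)))) ?_)) ?_
    · intro x
      rw [LinearMap.mem_ker, LinearMap.domRestrict_apply]
      exact hk x.2
    · intro x y hxy
      have h4 := congrArg Subtype.val hxy
      exact Submodule.inclusion_injective hle h4
  omega

theorem rank_sum {a m : ℕ} (k : ℕ) (L : Matrix (Fin a) (Fin m) ℂ[X])
    (R : Matrix (Fin m) (Fin a) ℂ[X]) (hLow : Low k L R) (N : ℕ) :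
    ∑ n ∈ range N, (lt k L R n).rank ≤ m := by
  have h1 : ∀ t, ∑ n ∈ range t, (lt k L R n).rank ≤ Module.finrank ℂ (RankSum_W (cf R) t) := by
    intro t
    induction t with
    | zero => simp
    | succ t ih =>
      rw [Finset.sum_range_succ]
      by_cases h : t ≤ k
      · have h2 := RankSum_rank (cf L) (cf R) hLow t h
        have h3 : lt k L R t = cf L (k - t) * cf R t := by
          unfold lt
          rw [if_pos h]
        rw [h3]
        omega
      · have h3 : lt k L R t = 0 := by
          unfold lt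
          rw [if_neg h]
        have h4 : Module.finrank ℂ (RankSum_W (cf R) t) ≤ Module.finrank ℂ (RankSum_W (cf R) (t + 1)) :=
          Submodule.finrank_mono le_sup_left
        rw [h3, Matrix.rank_zero, add_zero]
        exact ih.trans h4
  refine (h1 N).trans ?_
  have h4 := Submodule.finrank_le (RankSum_W (cf R) N)
  simpa using h4

end Pool.Agent.KNM
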