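import Pool.Agent.KNM.Step

/-!
KNM-Red.  The semistable reduction.

PLAN.  Strong induction on the natural number `natTrailingDegree (dt x0 y0 L R) - a * k` (it is `≥ 0` by `low_ord` and strictly
decreases in every `step`, `k ↦ k + 1`), with the invariant bound `D + (ord - a k)` for the degree of the final `R'`:
`(D + 1) + (ord' - a (k+1)) ≤ D + (ord - a k)`.
-/

namespace Pool.Agent.KNM

open Matrix Polynomial Finset

theorem red {a m : ℕ} (q : ℂ[X]) (x0 y0 : ℂ) (hx : x0 ≠ 0) (hy : y0 ≠ 0) (k D : ℕ)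
    (L : Matrix (Fin a) (Fin m) ℂ[X]) (R : Matrix (Fin m) (Fin a) ℂ[X])
    (hLow : Low k L R) (hKil : Kil q L R) (hdt : dt x0 y0 L R ≠ 0)
    (hD : ∀ i j, (R i j).natDegree ≤ D) :
    ∃ (k' : ℕ) (L' : Matrix (Fin a) (Fin m) ℂ[X]) (R' : Matrix (Fin m) (Fin a) ℂ[X]),
      Low k' L' R' ∧ Kil q L' R' ∧ NoShrink (lt k' L' R') ∧
      (∀ i j, (R' i j).natDegree ≤ D + ((dt x0 y0 L R).natTrailingDegree - a * k)) := by
  obtain ⟨N, hN⟩ : ∃ N, (dt x0 y0 L R).natTrailingDegree - a * k = N := ⟨_, rfl⟩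
  induction N using Nat.strong_induction_on generalizing k D L R with
  | _ N ih =>
    by_cases h : NoShrink (lt k L R)
    · exact ⟨k, L, R, hLow, hKil, h, fun i j => (hD i j).trans (Nat.le_add_right _ _)⟩
    · obtain ⟨L1, R1, h1, h2, h3, h4, h5⟩ := step k D L R q x0 y0 hx hy hLow hKil hdt hD h
      have h6 := low_ord k L R x0 y0 hLow hdt
      have h7 := low_ord (k + 1) L1 R1 x0 y0 h1 h3
      have h8 : a * (k + 1) = a * k + a := by ring
      obtain ⟨k', L', R', g1, g2, g3, g4⟩ := ih _ (by omega) (k + 1) (D + 1) L1 R1 h1 h2 h3 h4 rfl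
      refine ⟨k', L', R', g1, g2, g3, fun i j => (g4 i j).trans ?_⟩
      omega

end Pool.Agent.KNM
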