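import Pool.Agent.KNM.Tuple
import Pool.Agent.KNM.Red
import Pool.Agent.KNM.DegDt
import Pool.Agent.KNM.RankSum
import Pool.Agent.KNM.LowDiv
import Pool.Agent.KNM.FoldDiv

/-!
KNM-Mult.  Theorem M for polynomial matrices.
-/

namespace Pool.Agent.KNM

open Matrix Polynomial Finset

theorem exists_ne_zero_eval (f : ℂ[X]) (hf : f ≠ 0) : ∃ x : ℂ, x ≠ 0 ∧ f.eval x ≠ 0 := by
  by_contra hc
  push Not at hc
  have h : f * X = 0 := by
    apply Polynomial.funext
    intro x
    by_cases hx : x = 0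
    · simp [hx]
    · simp [hc x hx]
  rcases mul_eq_zero.mp h with h | h
  · exact hf h
  · exact X_ne_zero h

theorem eval_detL {a m : ℕ} (L : Matrix (Fin a) (Fin m) ℂ[X]) (M : Matrix (Fin m) (Fin a) ℂ)
    (x : ℂ) : ((L * M.map Polynomial.C).det).eval x = (L.map (fun f => f.eval x) * M).det := by
  have h := RingHom.map_det (Polynomial.evalRingHom x) (L * M.map Polynomial.C)
  rw [Polynomial.coe_evalRingHom] at h
  rw [h]
  congr 1
  ext i j
  simp [Matrix.mul_apply, Polynomial.eval_finsetSum]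

theorem eval_detR {a m : ℕ} (M : Matrix (Fin a) (Fin m) ℂ) (R : Matrix (Fin m) (Fin a) ℂ[X])
    (y : ℂ) : ((M.map Polynomial.C * R).det).eval y = (M * R.map (fun f => f.eval y)).det := by
  have h := RingHom.map_det (Polynomial.evalRingHom y) (M.map Polynomial.C * R)
  rw [Polynomial.coe_evalRingHom] at h
  rw [h]
  congr 1
  ext i j
  simp [Matrix.mul_apply, Polynomial.eval_finsetSum]

theorem eval_dt {a m : ℕ} (α β : ℂ) (L : Matrix (Fin a) (Fin m) ℂ[X])
    (R : Matrix (Fin m) (Fin a) ℂ[X]) : (dt α β L R).eval 1 =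
      (L.map (fun f => f.eval α) * R.map (fun f => f.eval β)).det := by
  unfold dt
  have h := RingHom.map_det (Polynomial.evalRingHom 1)
    (L.map (fun f => f.comp (Polynomial.C α * X)) *
      R.map (fun f => f.comp (Polynomial.C β * X)))
  rw [Polynomial.coe_evalRingHom] at h
  rw [h]
  congr 1
  ext i j
  simp [Matrix.mul_apply, Polynomial.eval_finsetSum, Polynomial.eval_comp]

theorem qq_ne_zero (Pi : Finset ℕ) (hPi : ∀ p ∈ Pi, 0 < p) : qq Pi ≠ 0 := by
  unfold qq
  rw [Finset.prod_ne_zero_iff]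
  intro p hp
  have h := Polynomial.X_pow_sub_C_ne_zero (hPi p hp) (1 : ℂ)
  simpa using h

theorem matM {a m : ℕ} (D : ℕ) (ha : 0 < a) (L : Matrix (Fin a) (Fin m) ℂ[X])
    (R : Matrix (Fin m) (Fin a) ℂ[X]) (hL : ∀ i j, (L i j).natDegree ≤ D)
    (hR : ∀ i j, (R i j).natDegree ≤ D) (Pi : Finset ℕ) (hPi : ∀ p ∈ Pi, 0 < p) (ν : ℕ)
    (hν : ∀ h, 0 < h → h ≤ D + 2 * a * D → (Pi.filter (fun p => p ∣ h)).card ≤ ν)
    (hK : Kil (qq Pi) L R) (x0 y0 : ℂ)
    (hdet : (L.map (fun f => f.eval x0) * R.map (fun f => f.eval y0)).det ≠ 0) :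
    a * Pi.card ≤ ν * m := by
  classical
  have hq : qq Pi ≠ 0 := qq_ne_zero Pi hPi
  -- nonzero points
  obtain ⟨x1, hx1, h1⟩ := exists_ne_zero_eval
    ((L * (R.map (fun f => f.eval y0)).map Polynomial.C).det) (by
      intro h0
      have h := eval_detL L (R.map (fun f => f.eval y0)) x0
      rw [h0] at h
      exact hdet (by rw [← h]; simp))
  rw [eval_detL] at h1
  obtain ⟨y1, hy1, h2⟩ := exists_ne_zero_eval
    (((L.map (fun f => f.eval x1)).map Polynomial.C * R).det) (by
      intro h0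
      have h := eval_detR (L.map (fun f => f.eval x1)) R y0
      rw [h0] at h
      exact h1 (by rw [← h]; simp))
  rw [eval_detR] at h2
  have hdt : dt x1 y1 L R ≠ 0 := by
    intro h0
    have h := eval_dt x1 y1 L R
    rw [h0] at h
    exact h2 (by rw [← h]; simp)
  have hLow : Low 0 L R := by
    intro u v huv
    exact absurd huv (Nat.not_lt_zero _)
  obtain ⟨k', L', R', hLow', hKil', hNS, hR'⟩ :=
    red (qq Pi) x1 y1 hx1 hy1 0 D L R hLow hK hdt hR
  have hord : (dt x1 y1 L R).natTrailingDegree ≤ 2 * a * D := by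
    have h3 := Polynomial.natTrailingDegree_le_natDegree (dt x1 y1 L R)
    have h4 := deg_dt D L R x1 y1 hL hR
    calc _ ≤ _ := h3
      _ ≤ a * (2 * D) := h4
      _ = 2 * a * D := by ring
  set N := D + 2 * a * D + 1 with hNdef
  have hN : ∀ n, N ≤ n → lt k' L' R' n = 0 := by
    intro n hn
    unfold lt
    split_ifs with hk
    · have hz : cf R' n = 0 := by
        ext i j
        unfold cf
        simp only [Matrix.map_apply, Matrix.zero_apply]
        apply Polynomial.coeff_eq_zero_of_natDegree_lt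
        have := hR' i j
        omega
      rw [hz, Matrix.mul_zero]
    · rfl
  have hfold : ∀ p ∈ Pi, ∀ c : ℕ,
      ∑ n ∈ (range N).filter (fun n => n % p = c), lt k' L' R' n = 0 := by
    intro p hp c
    ext i j
    rw [Matrix.sum_apply]
    have hd := low_div k' L' R' (qq Pi) hq hLow' hKil' N hN i j
    have hd2 : (X ^ p - 1 : ℂ[X]) ∣ ∑ n ∈ range N, Polynomial.C (lt k' L' R' n i j) * X ^ n := by
      refine dvd_trans ?_ hd
      unfold qq
      exact Finset.dvd_prod_of_mem (fun p => (X ^ p - 1 : ℂ[X])) hp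
    exact fold_div p (hPi p hp) N (fun n => lt k' L' R' n i j) hd2 c
  have hν' : ∀ k, 0 < k → k < N → (Pi.filter (fun p => p ∣ k)).card ≤ ν := by
    intro k hk hk2
    exact hν k hk (by omega)
  have hT := tuple ha N (lt k' L' R') hN hNS Pi ν hfold hν'
  have hRS := rank_sum k' L' R' hLow' N
  calc a * Pi.card ≤ ν * ∑ n ∈ range N, (lt k' L' R' n).rank := hT
    _ ≤ ν * m := Nat.mul_le_mul_left _ hRS

end Pool.Agent.KNM
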