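import Pool.Agent.KNM.MvRank
import Pool.Agent.KNM.Mult
import Pool.Agent.KNM.Factor

/-!
KNM-Api.  The interface of the label-free merging theorem (Theorem M of /team-store/kno_h65b.md) for functions.

`F l x y ρ` is a polynomial in `(x, y)` of degree `≤ D` in each variable for every `l` (all variables before) and every
`ρ` (all variables after); the cut `(l, x) | (y, ρ)` has outer rank `≤ r` (all `(r+1)`-minors vanish); the function vanishes on
the merging curve `(q z, z * q z)`, `q = ∏ p ∈ Pi, (z ^ p - 1)`; every `0 < h ≤ D + 2 a D` is divisible by at most `ν`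
elements of `Pi`; `ν r < a |Pi|`.  Then all `a`-minors of the kernel `(l, ρ)` vanish for all `x, y`: the outer rank after the
elimination is `< a`.  `dich` is the form with minors, `dichR` the form with factorisations.
-/

namespace Pool.Agent.KNM

open Matrix Polynomial Finset

theorem dich {Λ Ρ : Type} (D : ℕ) (c : Λ → ℕ → ℕ → Ρ → ℂ) (F : Λ → ℂ → ℂ → Ρ → ℂ)
    (hF : ∀ l x y ρ, F l x y ρ =
      ∑ u ∈ range (D + 1), ∑ v ∈ range (D + 1), c l u v ρ * x ^ u * y ^ v)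
    (r : ℕ) (hcut : MV (fun (p : Λ × ℂ) (s : ℂ × Ρ) => F p.1 p.2 s.1 s.2) (r + 1))
    (Pi : Finset ℕ) (hPi : ∀ p ∈ Pi, 0 < p) (ν a : ℕ) (ha : 0 < a)
    (hν : ∀ h, 0 < h → h ≤ D + 2 * a * D → (Pi.filter (fun p => p ∣ h)).card ≤ ν)
    (hkill : ∀ l ρ z, F l ((qq Pi).eval z) (z * (qq Pi).eval z) ρ = 0)
    (har : ν * r < a * Pi.card) :
    ∀ x y, MV (fun l ρ => F l x y ρ) a := by
  classical
  obtain ⟨A, B, hAB⟩ := fac_of_mv _ r hcut
  obtain ⟨L, R, hL, hR, hLR⟩ := factor D c F hF r A B (fun l x y ρ => hAB (l, x) (y, ρ))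
  intro x y s t
  by_contra hne
  have hK : Kil (qq Pi) (Matrix.of fun (i : Fin a) k => L (s i) k)
      (Matrix.of fun k (j : Fin a) => R k (t j)) := by
    intro i j
    apply Polynomial.funext
    intro z
    rw [Polynomial.eval_finsetSum]
    simp only [Matrix.of_apply, Polynomial.eval_mul, Polynomial.eval_comp, Polynomial.eval_X,
      Polynomial.eval_zero]
    rw [← hLR]
    exact hkill (s i) (t j) z
  have hM := matM D ha (Matrix.of fun (i : Fin a) k => L (s i) k)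
    (Matrix.of fun k (j : Fin a) => R k (t j)) (fun i j => hL _ _) (fun i j => hR _ _) Pi hPi ν hν
    hK x y (by
      intro h0
      apply hne
      rw [← h0]
      congr 1
      ext i j
      simp only [Matrix.of_apply, Matrix.mul_apply, Matrix.map_apply]
      exact hLR _ _ _ _)
  omega

/-- the same with factorisations; `a = a' + 1` -/
theorem dichR {Λ Ρ : Type} (D : ℕ) (c : Λ → ℕ → ℕ → Ρ → ℂ) (F : Λ → ℂ → ℂ → Ρ → ℂ)
    (hF : ∀ l x y ρ, F l x y ρ =
      ∑ u ∈ range (D + 1), ∑ v ∈ range (D + 1), c l u v ρ * x ^ u * y ^ v)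
    (r : ℕ) (A : Fin r → Λ × ℂ → ℂ) (B : Fin r → ℂ × Ρ → ℂ)
    (hcut : ∀ l x y ρ, F l x y ρ = ∑ i, A i (l, x) * B i (y, ρ))
    (Pi : Finset ℕ) (hPi : ∀ p ∈ Pi, 0 < p) (ν a : ℕ)
    (hν : ∀ h, 0 < h → h ≤ D + 2 * (a + 1) * D → (Pi.filter (fun p => p ∣ h)).card ≤ ν)
    (hkill : ∀ l ρ z, F l ((qq Pi).eval z) (z * (qq Pi).eval z) ρ = 0)
    (har : ν * r < (a + 1) * Pi.card) (x y : ℂ) :
    ∃ (f : Fin a → Λ → ℂ) (g : Fin a → Ρ → ℂ), ∀ l ρ, F l x y ρ = ∑ i, f i l * g i ρ :=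
  fac_of_mv _ _ (dich D c F hF r (mv_of_fac _ _ ⟨A, B, fun p s => hcut p.1 p.2 s.1 s.2⟩)
    Pi hPi ν (a + 1) (Nat.succ_pos a) hν hkill har x y)

end Pool.Agent.KNM
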