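import Pool.Agent.KNM.Defs

/-!
KNM-FrobS.  Elementary facts about `frob` and the formula for `frob (S * C * T)`.

PLAN.  `frob M = (trace (Mᴴ * M)).re`, more precisely `((frob M : ℝ) : ℂ) = (Mᴴ * M).trace`
(`Matrix.trace`, `Matrix.mul_apply`, `Complex.mul_conj`/`Complex.normSq_eq_norm_sq`, swap the sums).
`frob_spec`: `(S C T)ᴴ (S C T) = Tᴴ Cᴴ (Sᴴ S) C T`, trace = trace `(Cᴴ (Sᴴ S) C (T Tᴴ))` (`trace_mul_cycle`/`trace_mul_comm`)
`= trace (Cᴴ U D Uᴴ C V E Vᴴ) = trace (Wᴴ D W E)` with `W = Uᴴ C V`, and this is `∑ i j, d i e j ‖W i j‖^2`.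
-/

namespace Pool.Agent.KNM

open Matrix Polynomial Finset

theorem frob_trace' {I J : Type*} [Fintype I] [Fintype J] (M : Matrix I J ℂ) :
    ((frob M : ℝ) : ℂ) = (M * Mᴴ).trace := by
  simp only [frob, Matrix.trace, Matrix.diag_apply, Matrix.mul_apply, Matrix.conjTranspose_apply]
  push_cast
  refine Finset.sum_congr rfl fun i _ => Finset.sum_congr rfl fun j _ => ?_
  rw [Complex.star_def, Complex.mul_conj, Complex.normSq_eq_norm_sq]
  push_cast
  rfl

theorem frob_trace {I J : Type*} [Fintype I] [Fintype J] (M : Matrix I J ℂ) :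
    ((frob M : ℝ) : ℂ) = (Mᴴ * M).trace := by
  rw [frob_trace', Matrix.trace_mul_comm]

theorem frob_nonneg {I J : Type*} [Fintype I] [Fintype J] (M : Matrix I J ℂ) : 0 ≤ frob M :=
  Finset.sum_nonneg fun _ _ => Finset.sum_nonneg fun _ _ => by positivity

theorem frob_eq_zero {I J : Type*} [Fintype I] [Fintype J] (M : Matrix I J ℂ) (h : frob M = 0) :
    M = 0 := by
  rw [frob, Finset.sum_eq_zero_iff_of_nonneg
    (fun _ _ => Finset.sum_nonneg fun _ _ => by positivity)] at h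
  ext i j
  have h1 := h i (Finset.mem_univ i)
  rw [Finset.sum_eq_zero_iff_of_nonneg (fun _ _ => by positivity)] at h1
  have h2 := h1 j (Finset.mem_univ j)
  have h3 : ‖M i j‖ = 0 := (pow_eq_zero_iff two_ne_zero).1 h2
  exact norm_eq_zero.1 h3

theorem frob_conjTranspose {I J : Type*} [Fintype I] [Fintype J] (M : Matrix I J ℂ) :
    frob Mᴴ = frob M := by
  rw [frob, frob, Finset.sum_comm]
  refine Finset.sum_congr rfl fun i _ => Finset.sum_congr rfl fun j _ => ?_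
  rw [Matrix.conjTranspose_apply, norm_star]

/-- Cauchy-Schwarz for matrix products -/
theorem frob_mul_le {I J K : Type*} [Fintype I] [Fintype J] [Fintype K] (M : Matrix I J ℂ)
    (M' : Matrix J K ℂ) : frob (M * M') ≤ frob M * frob M' := by
  have h1 : ∀ i k, ‖(M * M') i k‖ ^ 2 ≤ (∑ j, ‖M i j‖ ^ 2) * ∑ j, ‖M' j k‖ ^ 2 := by
    intro i k
    have h2 : ‖(M * M') i k‖ ≤ ∑ j, ‖M i j‖ * ‖M' j k‖ := by
      rw [Matrix.mul_apply]
      refine (norm_sum_le _ _).trans ?_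
      refine Finset.sum_le_sum fun j _ => ?_
      rw [norm_mul]
    calc ‖(M * M') i k‖ ^ 2 ≤ (∑ j, ‖M i j‖ * ‖M' j k‖) ^ 2 :=
          pow_le_pow_left₀ (norm_nonneg _) h2 2
      _ ≤ _ := Finset.sum_mul_sq_le_sq_mul_sq _ _ _
  calc frob (M * M') ≤ ∑ i, ∑ k, (∑ j, ‖M i j‖ ^ 2) * ∑ j, ‖M' j k‖ ^ 2 :=
        Finset.sum_le_sum fun i _ => Finset.sum_le_sum fun k _ => h1 i k
    _ = frob M * frob M' := by
        rw [frob, frob, Finset.sum_comm (s := (Finset.univ : Finset J)), Finset.sum_mul_sum]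

theorem frob_spec {a : ℕ} (C S T U V : Matrix (Fin a) (Fin a) ℂ) (d e : Fin a → ℝ)
    (hS : Sᴴ * S = U * Matrix.diagonal (fun i => ((d i : ℝ) : ℂ)) * Uᴴ)
    (hT : T * Tᴴ = V * Matrix.diagonal (fun i => ((e i : ℝ) : ℂ)) * Vᴴ) :
    frob (S * C * T) = ∑ i, ∑ j, d i * e j * ‖(Uᴴ * C * V) i j‖ ^ 2 := by
  have h1 : ((frob (S * C * T) : ℝ) : ℂ) =
      (diagonal (fun i => (d i : ℂ)) * (Uᴴ * C * V) * diagonal (fun i => (e i : ℂ)) *
        (Uᴴ * C * V)ᴴ).trace := by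
    rw [frob_trace']
    have e1 : S * C * T * (S * C * T)ᴴ = S * (C * (T * Tᴴ) * Cᴴ * Sᴴ) := by
      simp only [Matrix.conjTranspose_mul, Matrix.mul_assoc]
    rw [e1, Matrix.trace_mul_comm]
    have e2 : C * (T * Tᴴ) * Cᴴ * Sᴴ * S = C * (T * Tᴴ) * Cᴴ * (Sᴴ * S) := by
      simp only [Matrix.mul_assoc]
    rw [e2, hS, hT]
    have e3 : C * (V * diagonal (fun i => (e i : ℂ)) * Vᴴ) * Cᴴ *
        (U * diagonal (fun i => (d i : ℂ)) * Uᴴ) =
        (C * V * diagonal (fun i => (e i : ℂ)) * Vᴴ * Cᴴ * U * diagonal (fun i => (d i : ℂ))) *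
          Uᴴ := by
      simp only [Matrix.mul_assoc]
    rw [e3, Matrix.trace_mul_comm]
    have e4 : Uᴴ * (C * V * diagonal (fun i => (e i : ℂ)) * Vᴴ * Cᴴ * U *
        diagonal (fun i => (d i : ℂ))) =
        (Uᴴ * (C * V * diagonal (fun i => (e i : ℂ)) * Vᴴ * Cᴴ * U)) *
        diagonal (fun i => (d i : ℂ)) := by
      simp only [Matrix.mul_assoc]
    rw [e4, Matrix.trace_mul_comm]
    congr 1
    simp only [Matrix.conjTranspose_mul, Matrix.conjTranspose_conjTranspose, Matrix.mul_assoc]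
  have h2 : ((frob (S * C * T) : ℝ) : ℂ) =
      ((∑ i, ∑ j, d i * e j * ‖(Uᴴ * C * V) i j‖ ^ 2 : ℝ) : ℂ) := by
    rw [h1]
    set X := Uᴴ * C * V with hX
    simp only [Matrix.trace, Matrix.diag_apply]
    push_cast
    refine Finset.sum_congr rfl fun i _ => ?_
    rw [Matrix.mul_apply]
    refine Finset.sum_congr rfl fun j _ => ?_
    rw [Matrix.mul_diagonal, Matrix.diagonal_mul, Matrix.conjTranspose_apply, Complex.star_def]
    have h3 : X i j * (starRingEnd ℂ) (X i j) = ((‖X i j‖ ^ 2 : ℝ) : ℂ) := by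
      rw [Complex.mul_conj, Complex.normSq_eq_norm_sq]
    calc (d i : ℂ) * X i j * (e j : ℂ) * (starRingEnd ℂ) (X i j)
        = (d i : ℂ) * (e j : ℂ) * (X i j * (starRingEnd ℂ) (X i j)) := by ring
      _ = _ := by rw [h3]; push_cast; rfl
  exact_mod_cast h2

end Pool.Agent.KNM
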