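import Pool.Agent.KNM.Defs

/-!
KNM-Spec.  Spectral decomposition of `Sᴴ * S` for a matrix of determinant one.

PLAN.  `hA : (Sᴴ * S).IsHermitian`, `Matrix.posSemidef_conjTranspose_mul_self`; `hA.spectral_theorem` gives
`Sᴴ * S = U * diagonal (eigenvalues) * Uᴴ` with `U = hA.eigenvectorUnitary`.  The product of the eigenvalues is
`det (Sᴴ * S) = conj (det S) * det S = 1` (`hA.det_eq_prod_eigenvalues`), all eigenvalues are `≥ 0`
(`PosSemidef.eigenvalues_nonneg`) and their product is `1`, so they are `> 0`.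
-/

namespace Pool.Agent.KNM

open Matrix Polynomial Finset

open ComplexOrder in
theorem spec {a : ℕ} (S : Matrix (Fin a) (Fin a) ℂ) (hS : S.det = 1) :
    ∃ (U : Matrix (Fin a) (Fin a) ℂ) (d : Fin a → ℝ), U ∈ Matrix.unitaryGroup (Fin a) ℂ ∧
      (∀ i, 0 < d i) ∧ ∏ i, d i = 1 ∧
      Sᴴ * S = U * Matrix.diagonal (fun i => ((d i : ℝ) : ℂ)) * Uᴴ := by
  have hP := Matrix.posSemidef_conjTranspose_mul_self S
  have hA : (Sᴴ * S).IsHermitian := hP.isHermitian
  have hprod : ∏ i, hA.eigenvalues i = 1 := by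
    have h1 := hA.det_eq_prod_eigenvalues
    rw [Matrix.det_mul, Matrix.det_conjTranspose, hS, star_one, one_mul] at h1
    have h2 : ((∏ i, hA.eigenvalues i : ℝ) : ℂ) = ((1 : ℝ) : ℂ) := by
      rw [Complex.ofReal_prod, Complex.ofReal_one]
      exact h1.symm
    exact Complex.ofReal_injective h2
  refine ⟨(hA.eigenvectorUnitary : Matrix (Fin a) (Fin a) ℂ), hA.eigenvalues,
    hA.eigenvectorUnitary.2, ?_, hprod, ?_⟩
  · intro i
    refine lt_of_le_of_ne (hP.eigenvalues_nonneg i) fun h0 => ?_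
    have h3 : ∏ i, hA.eigenvalues i = 0 := Finset.prod_eq_zero (Finset.mem_univ i) h0.symm
    rw [h3] at hprod
    exact zero_ne_one hprod
  · have h4 := hA.spectral_theorem
    rw [Unitary.conjStarAlgAut_apply] at h4
    exact h4

end Pool.Agent.KNM
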