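import Pool.Agent.KNM.Hall
import Pool.Agent.KNM.Spec
import Pool.Agent.KNM.FrobS

/-!
KNM-Cap.  No shrunk subspace => `∑ n, frob (S * C n * T)` is bounded below on `SL_a × SL_a`.

PLAN.  Let `c U V i j = ∑ n ∈ range N, ‖(Uᴴ * C n * V) i j‖ ^ 2` and `f (U, V) = ∑ σ : Perm (Fin a), ∏ i, c U V i (σ i)`
(the sum over all permutations is simpler than the maximum).
(1) `prodbd` below: with `x i = d i * e (σ i) * c i (σ i) ≤ s := ∑ i j, d i e j c i j` one has
   `∏ i, c i (σ i) = ∏ i, x i ≤ s ^ a` (the products of the `d` and of the `e` are one; `Equiv.prod_comp`).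
   Hence `f (U,V) ≤ a! * s ^ a`.
(2) `f` is continuous in `(U, V)` and, by `exists_perm` (applied to `Uᴴ` and `V`, unitary, so the determinants are units;
   if `C n ≠ 0` then `n < N`), `f > 0` on unitary × unitary.
(3) the unitary group is compact (closed and bounded in `Matrix (Fin a) (Fin a) ℂ`; entries have norm `≤ 1`,
   `entry_norm_bound_of_unitary`; the matrices form the proper space `Fin a → Fin a → ℂ`), nonempty; so there is `κ > 0`
   with `κ ≤ f` on the product (`IsCompact.exists_isMinOn`).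
(4) for `S, T` of determinant one take `spec S` and `spec Tᴴ` (`(Tᴴ)ᴴ * Tᴴ = T * Tᴴ`), `frob_spec` for every `n < N` and sum:
   `s = ∑ n, frob (S * C n * T)` satisfies `κ ≤ a! * s ^ a`; so `c0 = min 1 (κ / a!)` works: if `s < c0` then `s < 1`,
   `s ^ a ≤ s` (`0 < a`) and `κ ≤ a! * s < κ`.
-/

namespace Pool.Agent.KNM

open Matrix Polynomial Finset
open scoped ComplexOrder

/-- the squared entries of the tuple after a unitary base change -/
noncomputable def cc {a : ℕ} (N : ℕ) (C : ℕ → Matrix (Fin a) (Fin a) ℂ) (U V : Matrix (Fin a) (Fin a) ℂ)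
    (i j : Fin a) : ℝ :=
  ∑ n ∈ Finset.range N, ‖(Uᴴ * C n * V) i j‖ ^ 2

/-- the permanent of `cc` -/
noncomputable def gg {a : ℕ} (N : ℕ) (C : ℕ → Matrix (Fin a) (Fin a) ℂ) (U V : Matrix (Fin a) (Fin a) ℂ) : ℝ :=
  ∑ s : Equiv.Perm (Fin a), ∏ i, cc N C U V i (s i)

theorem cc_nonneg {a : ℕ} (N : ℕ) (C : ℕ → Matrix (Fin a) (Fin a) ℂ) (U V : Matrix (Fin a) (Fin a) ℂ)
    (i j : Fin a) : 0 ≤ cc N C U V i j :=
  Finset.sum_nonneg fun _ _ => by positivity

theorem gg_pos {a : ℕ} {N : ℕ} {C : ℕ → Matrix (Fin a) (Fin a) ℂ} (hC : ∀ n, N ≤ n → C n = 0)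
    (hs : NoShrink C) {U V : Matrix (Fin a) (Fin a) ℂ} (hU : Uᴴ * U = 1) (hV : Vᴴ * V = 1) :
    0 < gg N C U V := by
  have hU2 : IsUnit (Uᴴ).det := by
    have := congrArg Matrix.det hU
    rw [Matrix.det_mul, Matrix.det_one] at this
    exact IsUnit.of_mul_eq_one _ this
  have hV2 : IsUnit V.det := by
    have := congrArg Matrix.det hV
    rw [Matrix.det_mul, Matrix.det_one, mul_comm] at this
    exact IsUnit.of_mul_eq_one _ this
  obtain ⟨σ, hσ⟩ := exists_perm C hs Uᴴ V hU2 hV2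
  have h1 : 0 < ∏ i, cc N C U V i (σ i) := by
    refine Finset.prod_pos fun i _ => ?_
    obtain ⟨n, hn⟩ := hσ i
    have hnN : n < N := by
      by_contra hlt
      rw [hC n (by omega)] at hn
      simp at hn
    have h2 : 0 < ‖(Uᴴ * C n * V) i (σ i)‖ ^ 2 := by
      have := norm_pos_iff.2 hn
      positivity
    refine lt_of_lt_of_le h2 ?_
    unfold cc
    exact Finset.single_le_sum (f := fun n => ‖(Uᴴ * C n * V) i (σ i)‖ ^ 2)
      (fun _ _ => by positivity) (Finset.mem_range.2 hnN)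
  refine lt_of_lt_of_le h1 ?_
  unfold gg
  exact Finset.single_le_sum (f := fun s : Equiv.Perm (Fin a) => ∏ i, cc N C U V i (s i))
    (fun s _ => Finset.prod_nonneg fun i _ => cc_nonneg _ _ _ _ _ _) (Finset.mem_univ _)

theorem compact_unitary {a : ℕ} : IsCompact {U : Matrix (Fin a) (Fin a) ℂ | Uᴴ * U = 1} := by
  have h1 : IsCompact (Set.pi Set.univ fun _ : Fin a => Set.pi Set.univ fun _ : Fin a =>
      Metric.closedBall (0 : ℂ) 1) :=
    isCompact_univ_pi fun _ => isCompact_univ_pi fun _ => isCompact_closedBall _ _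
  refine IsCompact.of_isClosed_subset h1 ?_ ?_
  · exact isClosed_eq (by fun_prop) continuous_const
  · intro U hU i _ j _
    rw [mem_closedBall_zero_iff]
    refine entry_norm_bound_of_unitary (U := U) ?_ i j
    rw [Matrix.mem_unitaryGroup_iff', Matrix.star_eq_conjTranspose]
    exact hU

theorem gg_cont {a : ℕ} (N : ℕ) (C : ℕ → Matrix (Fin a) (Fin a) ℂ) :
    Continuous fun p : Matrix (Fin a) (Fin a) ℂ × Matrix (Fin a) (Fin a) ℂ =>
      gg N C p.1 p.2 := by
  unfold gg cc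
  refine continuous_finsetSum _ fun s _ => continuous_finsetProd _ fun i _ =>
    continuous_finsetSum _ fun n _ => ?_
  refine Continuous.pow (Continuous.norm ?_) 2
  refine Continuous.matrix_elem ?_ _ _
  fun_prop

theorem gg_bound {a : ℕ} {N : ℕ} {C : ℕ → Matrix (Fin a) (Fin a) ℂ} (hC : ∀ n, N ≤ n → C n = 0)
    (hs : NoShrink C) : ∃ γ : ℝ, 0 < γ ∧ ∀ U V : Matrix (Fin a) (Fin a) ℂ, Uᴴ * U = 1 →
      Vᴴ * V = 1 → γ ≤ gg N C U V := by
  have hK : IsCompact ({U : Matrix (Fin a) (Fin a) ℂ | Uᴴ * U = 1} ×ˢ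
      {U : Matrix (Fin a) (Fin a) ℂ | Uᴴ * U = 1}) := compact_unitary.prod compact_unitary
  have h1 : (1 : Matrix (Fin a) (Fin a) ℂ)ᴴ * 1 = 1 := by
    rw [Matrix.conjTranspose_one, Matrix.mul_one]
  have hne : ({U : Matrix (Fin a) (Fin a) ℂ | Uᴴ * U = 1} ×ˢ
      {U : Matrix (Fin a) (Fin a) ℂ | Uᴴ * U = 1}).Nonempty :=
    ⟨((1 : Matrix (Fin a) (Fin a) ℂ), (1 : Matrix (Fin a) (Fin a) ℂ)), Set.mk_mem_prod h1 h1⟩
  obtain ⟨p, hp, hmin⟩ := hK.exists_isMinOn hne (gg_cont N C).continuousOn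
  have hmin2 := isMinOn_iff.1 hmin
  refine ⟨gg N C p.1 p.2, gg_pos hC hs hp.1 hp.2, fun U V hU hV => ?_⟩
  exact hmin2 (U, V) (Set.mk_mem_prod hU hV)

theorem prodbd {a : ℕ} (d e : Fin a → ℝ) (hd : ∀ i, 0 < d i) (he : ∀ i, 0 < e i)
    (hd1 : ∏ i, d i = 1) (he1 : ∏ i, e i = 1) (c : Fin a → Fin a → ℝ) (hc : ∀ i j, 0 ≤ c i j)
    (σ : Equiv.Perm (Fin a)) :
    ∏ i, c i (σ i) ≤ (∑ i, ∑ j, d i * e j * c i j) ^ a := by
  have h0 : ∀ i j, 0 ≤ d i * e j * c i j := fun i j =>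
    mul_nonneg (mul_nonneg (hd i).le (he j).le) (hc i j)
  have hle : ∀ i j, d i * e j * c i j ≤ ∑ i, ∑ j, d i * e j * c i j := by
    intro i j
    have h1 : d i * e j * c i j ≤ ∑ j, d i * e j * c i j :=
      Finset.single_le_sum (f := fun j => d i * e j * c i j)
        (fun j _ => h0 i j) (Finset.mem_univ j)
    refine h1.trans ?_
    exact Finset.single_le_sum (f := fun i => ∑ j, d i * e j * c i j)
        (fun i _ => Finset.sum_nonneg fun j _ => h0 i j) (Finset.mem_univ i)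
  have h1 : ∏ i, (d i * e (σ i) * c i (σ i)) ≤
      ∏ _i : Fin a, (∑ i, ∑ j, d i * e j * c i j) :=
    Finset.prod_le_prod (fun i _ => h0 i (σ i)) fun i _ => hle i (σ i)
  rw [Finset.prod_mul_distrib, Finset.prod_mul_distrib, hd1, Equiv.prod_comp σ e, he1, one_mul,
    one_mul, Finset.prod_const, Finset.card_univ, Fintype.card_fin] at h1
  exact h1

theorem cap_pos {a : ℕ} (ha : 0 < a) (N : ℕ) (C : ℕ → Matrix (Fin a) (Fin a) ℂ)
    (hN : ∀ n, N ≤ n → C n = 0) (h : NoShrink C) :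
    ∃ c0 : ℝ, 0 < c0 ∧ ∀ S T : Matrix (Fin a) (Fin a) ℂ, S.det = 1 → T.det = 1 →
      c0 ≤ ∑ n ∈ range N, frob (S * C n * T) := by
  obtain ⟨γ, hγ, hγ2⟩ := gg_bound hN h
  have hfac : (0 : ℝ) < (a.factorial : ℝ) := by exact_mod_cast a.factorial_pos
  refine ⟨min 1 (γ / a.factorial), lt_min one_pos (by positivity), fun S T hS hT => ?_⟩
  obtain ⟨U, d, hU, hd, hd2, hdS⟩ := spec S hS
  have hT' : (Tᴴ).det = 1 := by
    rw [Matrix.det_conjTranspose, hT, star_one]
  obtain ⟨V, e, hV, he, he2, heT⟩ := spec Tᴴ hT'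
  rw [Matrix.conjTranspose_conjTranspose] at heT
  rw [Matrix.mem_unitaryGroup_iff', Matrix.star_eq_conjTranspose] at hU hV
  set F := ∑ n ∈ range N, frob (S * C n * T) with hF
  have hF2 : F = ∑ i, ∑ j, d i * e j * cc N C U V i j := by
    rw [hF]
    simp only [frob_spec _ S T U V d e hdS heT, cc, Finset.mul_sum]
    rw [Finset.sum_comm]
    refine Finset.sum_congr rfl fun i _ => ?_
    rw [Finset.sum_comm]
  have hF0 : 0 ≤ F := Finset.sum_nonneg fun _ _ => frob_nonneg _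
  have hperm : ∀ s : Equiv.Perm (Fin a), ∏ i, cc N C U V i (s i) ≤ F ^ a := by
    intro s
    rw [hF2]
    exact prodbd d e hd he hd2 he2 _ (cc_nonneg N C U V) s
  have hgg : gg N C U V ≤ a.factorial * F ^ a := by
    unfold gg
    refine (Finset.sum_le_card_nsmul _ _ _ fun s _ => hperm s).trans ?_
    rw [Finset.card_univ, Fintype.card_perm, Fintype.card_fin, nsmul_eq_mul]
  have hg := (hγ2 U V hU hV).trans hgg
  by_contra hlt
  push Not at hlt
  have h1 : F < 1 := lt_of_lt_of_le hlt (min_le_left _ _)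
  have h2 : F < γ / a.factorial := lt_of_lt_of_le hlt (min_le_right _ _)
  have h3 : F ^ a ≤ F := by
    calc F ^ a ≤ F ^ 1 := pow_le_pow_of_le_one hF0 h1.le ha
      _ = F := pow_one F
  have h4 : (a.factorial : ℝ) * F ^ a < γ := by
    calc (a.factorial : ℝ) * F ^ a ≤ a.factorial * F := mul_le_mul_of_nonneg_left h3 hfac.le
      _ < a.factorial * (γ / a.factorial) := mul_lt_mul_of_pos_left h2 hfac
      _ = γ := by field_simp
  linarith

end Pool.Agent.KNM
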