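import Pool.Agent.KNM.Defs

/-!
KNM-Crit.  The balanced position.

Minimise `frob L + frob R` over the closed set of the pairs `(L, R)` which satisfy every relation
`L * dg lab φ * R = 0` which the given pair satisfies and the lower bound `c0` on `SL_a × SL_a`.
At the minimum, transvections and diagonal matrices give the balance.
-/

namespace Pool.Agent.KNM

open Matrix Polynomial Finset

private theorem cr_frob {m n : Type*} [Fintype m] [Fintype n] (A : Matrix m n ℂ) :
    frob A = ∑ i, ∑ j, Complex.normSq (A i j) := by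
  unfold frob
  refine sum_congr rfl fun i _ => sum_congr rfl fun j _ => ?_
  rw [Complex.normSq_eq_norm_sq]

private theorem cr_nonneg {m n : Type*} [Fintype m] [Fintype n] (A : Matrix m n ℂ) : 0 ≤ frob A := by
  rw [cr_frob]
  exact sum_nonneg fun _ _ => sum_nonneg fun _ _ => Complex.normSq_nonneg _


private theorem cr_conjTranspose {m n : Type} [Fintype m] [Fintype n] (A : Matrix m n ℂ) :
    frob Aᴴ = frob A := by
  simp only [cr_frob]
  rw [sum_comm]
  refine sum_congr rfl fun i _ => sum_congr rfl fun j _ => ?_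
  rw [conjTranspose_apply, RCLike.star_def, Complex.normSq_conj]

private theorem cr_transv_left {m n : Type} [Fintype m] [DecidableEq m] [Fintype n] (i k : m) (t : ℂ)
    (L : Matrix m n ℂ) :
    frob (transvection i k t * L) = frob L +
      (2 * (t * (L * Lᴴ) k i).re + Complex.normSq t * ∑ j, Complex.normSq (L k j)) := by
  have h : frob (transvection i k t * L) - frob L =
      2 * (t * (L * Lᴴ) k i).re + Complex.normSq t * ∑ j, Complex.normSq (L k j) := by
    simp only [cr_frob]
    rw [← sum_sub_distrib, sum_eq_single i]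
    · rw [← sum_sub_distrib]
      simp only [transvection_mul_apply_same]
      simp only [mul_apply, conjTranspose_apply, RCLike.star_def]
      rw [mul_sum, mul_sum, Complex.re_sum, mul_sum, ← sum_add_distrib]
      refine sum_congr rfl fun j _ => ?_
      rw [Complex.normSq_add, Complex.normSq_mul]
      have : (L i j * (starRingEnd ℂ) (t * L k j)).re = (t * (L k j * (starRingEnd ℂ) (L i j))).re := by
        rw [← Complex.conj_re]
        congr 1
        simp only [map_mul, Complex.conj_conj]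
        ring
      rw [this]; ring
    · intro b _ hb
      rw [← sum_sub_distrib]
      refine sum_eq_zero fun j _ => ?_
      rw [transvection_mul_apply_of_ne i k b j hb, sub_self]
    · intro h; exact absurd (mem_univ i) h
  linarith

private theorem cr_transv_ct {m : Type} [DecidableEq m] (i k : m) (t : ℂ) :
    (transvection i k t)ᴴ = transvection k i ((starRingEnd ℂ) t) := by
  rw [transvection, transvection, conjTranspose_add, conjTranspose_one, conjTranspose_single]
  rfl

private theorem cr_transv_right {m n : Type} [Fintype m] [Fintype n] [DecidableEq n] (i k : n) (t : ℂ)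
    (L : Matrix m n ℂ) :
    frob (L * transvection i k t) = frob L +
      (2 * (t * (Lᴴ * L) k i).re + Complex.normSq t * ∑ j, Complex.normSq (L j i)) := by
  rw [← cr_conjTranspose, conjTranspose_mul, cr_transv_ct, cr_transv_left, cr_conjTranspose,
    conjTranspose_conjTranspose, Complex.normSq_conj]
  have h1 : ((starRingEnd ℂ) t * (Lᴴ * L) i k).re = (t * (Lᴴ * L) k i).re := by
    rw [← Complex.conj_re]
    congr 1
    rw [map_mul, Complex.conj_conj]
    congr 1
    have h : (Lᴴ * L)ᴴ = Lᴴ * L := by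
      rw [conjTranspose_mul, conjTranspose_conjTranspose]
    conv_rhs => rw [← h]
    rfl
  have h2 : ∑ j, Complex.normSq (Lᴴ i j) = ∑ j, Complex.normSq (L j i) :=
    sum_congr rfl fun j _ => by rw [conjTranspose_apply, RCLike.star_def, Complex.normSq_conj]
  rw [h1, h2]

private theorem cr_diag_left {m n : Type} [Fintype m] [DecidableEq m] [Fintype n] (d : m → ℂ)
    (L : Matrix m n ℂ) :
    frob (diagonal d * L) = ∑ i, Complex.normSq (d i) * ∑ j, Complex.normSq (L i j) := by
  simp only [cr_frob]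
  refine sum_congr rfl fun i _ => ?_
  rw [mul_sum]
  refine sum_congr rfl fun j _ => ?_
  rw [diagonal_mul, Complex.normSq_mul]

private theorem cr_diag_right {m n : Type} [Fintype m] [Fintype n] [DecidableEq n] (d : n → ℂ)
    (L : Matrix m n ℂ) :
    frob (L * diagonal d) = ∑ i, Complex.normSq (d i) * ∑ j, Complex.normSq (L j i) := by
  simp only [cr_frob]
  rw [sum_comm]
  refine sum_congr rfl fun i _ => ?_
  rw [mul_sum]
  refine sum_congr rfl fun j _ => ?_
  rw [mul_diagonal, Complex.normSq_mul, mul_comm]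

private theorem cr_quad (w : ℂ) (K : ℝ) (h : ∀ t : ℂ, 0 ≤ 2 * (t * w).re + Complex.normSq t * K) : w = 0 := by
  by_contra hw
  have hw0 : 0 < Complex.normSq w := Complex.normSq_pos.2 hw
  set ε : ℝ := 1 / (|K| + 1) with hε
  have hK : 0 < |K| + 1 := by have := abs_nonneg K; linarith
  have hε0 : 0 < ε := by positivity
  have h1 := h (-(ε : ℂ) * (starRingEnd ℂ) w)
  have e1 : (-(ε : ℂ) * (starRingEnd ℂ) w * w).re = -ε * Complex.normSq w := by
    rw [mul_assoc, mul_comm ((starRingEnd ℂ) w) w, Complex.mul_conj, ← Complex.ofReal_neg,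
      ← Complex.ofReal_mul, Complex.ofReal_re]
  have e2 : Complex.normSq (-(ε : ℂ) * (starRingEnd ℂ) w) = ε ^ 2 * Complex.normSq w := by
    rw [Complex.normSq_mul, Complex.normSq_conj, Complex.normSq_neg, Complex.normSq_ofReal]; ring
  rw [e1, e2] at h1
  have h2 : ε * K < 1 := by
    have : K ≤ |K| := le_abs_self K
    rw [hε, div_mul_eq_mul_div, one_mul, div_lt_one hK]; linarith
  have h3 : 0 < ε * Complex.normSq w := by positivity
  nlinarith

private theorem cr_scale (A B : ℝ) (hA : 0 ≤ A)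
    (h : ∀ s : ℝ, 0 < s → 0 ≤ (s ^ 2 - 1) * A + ((s⁻¹) ^ 2 - 1) * B) : A = B := by
  have h' : ∀ u : ℝ, 0 < u → 0 ≤ (u - 1) * (u * A - B) := by
    intro u hu
    have h1 := h (Real.sqrt u) (Real.sqrt_pos.2 hu)
    rw [inv_pow, Real.sq_sqrt hu.le] at h1
    have h2 : (u - 1) * (u * A - B) = u * ((u - 1) * A + (u⁻¹ - 1) * B) := by
      field_simp; ring
    rw [h2]
    exact mul_nonneg hu.le h1
  apply le_antisymm
  · refine le_of_forall_pos_le_add fun ε hε => ?_
    set δ := min (1 / 2) (ε / (A + 1)) with hδ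
    have hδ0 : 0 < δ := lt_min (by norm_num) (by positivity)
    have hδ1 : δ ≤ 1 / 2 := min_le_left _ _
    have hδ2 : δ * A ≤ ε := by
      have h3 : δ ≤ ε / (A + 1) := min_le_right _ _
      calc δ * A ≤ ε / (A + 1) * A := mul_le_mul_of_nonneg_right h3 hA
        _ ≤ ε := by
          rw [div_mul_eq_mul_div, div_le_iff₀ (by linarith)]
          nlinarith
    have h4 := h' (1 - δ) (by linarith)
    have h5 : (1 - δ) * A - B ≤ 0 := by
      by_contra hc
      push Not at hc
      nlinarith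
    nlinarith
  · refine le_of_forall_pos_le_add fun ε hε => ?_
    set δ := ε / (A + 1) with hδ
    have hδ0 : 0 < δ := by positivity
    have hδ2 : δ * A ≤ ε := by
      rw [hδ, div_mul_eq_mul_div, div_le_iff₀ (by linarith)]
      nlinarith
    have h4 := h' (1 + δ) (by linarith)
    have h5 : 0 ≤ (1 + δ) * A - B := by
      by_contra hc
      push Not at hc
      nlinarith
    nlinarith

/-- the relations `Φ` and the lower bound `κ` -/
private def InY {a : ℕ} {J : Type} [Fintype J] [DecidableEq J] (lab : J → ℕ) (N : ℕ)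
    (Φ : Set (ℕ → ℂ)) (κ : ℝ) (L : Matrix (Fin a) J ℂ) (R : Matrix J (Fin a) ℂ) : Prop :=
  (∀ φ ∈ Φ, L * dg lab φ * R = 0) ∧
  ∀ S T : Matrix (Fin a) (Fin a) ℂ, S.det = 1 → T.det = 1 →
    κ ≤ ∑ n ∈ range N, frob (S * tup lab L R n * T)

private theorem cr_cont_frob {m n : Type} [Fintype m] [Fintype n] :
    Continuous (fun A : Matrix m n ℂ => frob A) := by
  simp only [cr_frob]
  refine continuous_finsetSum _ fun i _ => continuous_finsetSum _ fun j _ => ?_
  exact Complex.continuous_normSq.comp (continuous_id.matrix_elem i j)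

private theorem cr_norm_le {m n : Type} [Fintype m] [Fintype n] (A : m → n → ℂ) (r : ℝ)
    (hr : frob (of A) ≤ r) : ‖A‖ ≤ Real.sqrt r := by
  have h0 : ∀ i j, ‖A i j‖ ≤ Real.sqrt r := by
    intro i j
    refine Real.le_sqrt_of_sq_le ?_
    rw [← Complex.normSq_eq_norm_sq]
    refine le_trans ?_ hr
    have h1 : Complex.normSq (A i j) ≤ ∑ j', Complex.normSq (A i j') :=
      single_le_sum (f := fun j' => Complex.normSq (A i j')) (fun _ _ => Complex.normSq_nonneg _) (mem_univ j)
    have h2 : ∑ j', Complex.normSq (A i j') ≤ frob (of A) := by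
      rw [cr_frob]
      exact single_le_sum (f := fun i' => ∑ j', Complex.normSq (A i' j'))
        (fun _ _ => sum_nonneg fun _ _ => Complex.normSq_nonneg _) (mem_univ i)
    exact h1.trans h2
  rw [pi_norm_le_iff_of_nonneg (Real.sqrt_nonneg r)]
  intro i
  rw [pi_norm_le_iff_of_nonneg (Real.sqrt_nonneg r)]
  exact h0 i

private theorem cr_exists_min {a : ℕ} {J : Type} [Fintype J] [DecidableEq J] (lab : J → ℕ)
    (N : ℕ) (Φ : Set (ℕ → ℂ)) (κ : ℝ) (L0 : Matrix (Fin a) J ℂ) (R0 : Matrix J (Fin a) ℂ)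
    (h0 : InY lab N Φ κ L0 R0) : ∃ (L : Matrix (Fin a) J ℂ) (R : Matrix J (Fin a) ℂ), InY lab N Φ κ L R ∧
      ∀ (L' : Matrix (Fin a) J ℂ) (R' : Matrix J (Fin a) ℂ), InY lab N Φ κ L' R' →
        frob L + frob R ≤ frob L' + frob R' := by
  set Y : Set ((Fin a → J → ℂ) × (J → Fin a → ℂ)) := {x | InY lab N Φ κ (of x.1) (of x.2)} with hY
  have c1 : Continuous (fun x : (Fin a → J → ℂ) × (J → Fin a → ℂ) => (of x.1 : Matrix (Fin a) J ℂ)) :=
    continuous_fst
  have c2 : Continuous (fun x : (Fin a → J → ℂ) × (J → Fin a → ℂ) => (of x.2 : Matrix J (Fin a) ℂ)) :=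
    continuous_snd
  have c3 : ∀ d : J → ℂ, Continuous (fun x : (Fin a → J → ℂ) × (J → Fin a → ℂ) =>
      (of x.1 : Matrix (Fin a) J ℂ) * diagonal d * of x.2) := fun d =>
    (c1.matrix_mul continuous_const).matrix_mul c2
  have c4 : ∀ φ : ℕ → ℂ, Continuous (fun x : (Fin a → J → ℂ) × (J → Fin a → ℂ) =>
      (of x.1 : Matrix (Fin a) J ℂ) * dg lab φ * of x.2) := fun φ => c3 (fun j => φ (lab j))
  have c5 : ∀ n : ℕ, Continuous (fun x : (Fin a → J → ℂ) × (J → Fin a → ℂ) =>
      tup lab (of x.1 : Matrix (Fin a) J ℂ) (of x.2) n) := fun n => by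
    unfold tup
    exact c4 _
  have hclosed : IsClosed Y := by
    have e : Y = (⋂ φ ∈ Φ, {x | (of x.1 : Matrix (Fin a) J ℂ) * dg lab φ * of x.2 = 0}) ∩
        (⋂ S : Matrix (Fin a) (Fin a) ℂ, ⋂ T : Matrix (Fin a) (Fin a) ℂ, ⋂ _ : S.det = 1,
          ⋂ _ : T.det = 1, {x | κ ≤ ∑ n ∈ range N, frob (S * tup lab (of x.1 : Matrix (Fin a) J ℂ)
            (of x.2) n * T)}) := by
      ext x
      simp only [hY, InY, Set.mem_ofPred_eq, Set.mem_inter_iff, Set.mem_iInter]
    rw [e]
    refine IsClosed.inter ?_ ?_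
    · refine isClosed_biInter fun φ _ => ?_
      exact isClosed_eq (c4 φ) continuous_const
    · refine isClosed_iInter fun S => isClosed_iInter fun T => isClosed_iInter fun _ =>
        isClosed_iInter fun _ => ?_
      refine isClosed_le continuous_const (continuous_finsetSum _ fun n _ => ?_)
      exact cr_cont_frob.comp ((continuous_const.matrix_mul (c5 n)).matrix_mul continuous_const)
  set f : (Fin a → J → ℂ) × (J → Fin a → ℂ) → ℝ := fun x => frob (of x.1) + frob (of x.2) with hf
  have hcont : Continuous f := (cr_cont_frob.comp c1).add (cr_cont_frob.comp c2)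
  have hnorm : ∀ x, ‖x‖ ≤ Real.sqrt (f x) := by
    intro x
    rw [Prod.norm_def]
    refine max_le (cr_norm_le _ _ ?_) (cr_norm_le _ _ ?_)
    · have := cr_nonneg (of x.2); simp only [hf]; linarith
    · have := cr_nonneg (of x.1); simp only [hf]; linarith
  have hf0 : ∀ x, 0 ≤ f x := fun x => add_nonneg (cr_nonneg _) (cr_nonneg _)
  have hx0 : ((L0, R0) : (Fin a → J → ℂ) × (J → Fin a → ℂ)) ∈ Y := h0
  obtain ⟨x, hxY, hmin⟩ := hcont.continuousOn.exists_isMinOn' hclosed hx0 (by
    have h1 : ∀ᶠ x in Filter.cocompact ((Fin a → J → ℂ) × (J → Fin a → ℂ)),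
        f ((L0, R0) : (Fin a → J → ℂ) × (J → Fin a → ℂ)) + 1 ≤ ‖x‖ :=
      (tendsto_norm_cocompact_atTop (E := (Fin a → J → ℂ) × (J → Fin a → ℂ))).eventually_ge_atTop _
    refine (h1.mono fun x hx => ?_).filter_mono inf_le_left
    have h2 := (hx.trans (hnorm x))
    have h3 := hf0 ((L0, R0) : (Fin a → J → ℂ) × (J → Fin a → ℂ))
    have h4 := Real.sq_sqrt (hf0 x)
    nlinarith)
  refine ⟨of x.1, of x.2, hxY, fun L' R' h' => ?_⟩
  have hx' : ((L', R') : (Fin a → J → ℂ) × (J → Fin a → ℂ)) ∈ Y := h'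
  have h1 : f x ≤ f ((L', R') : (Fin a → J → ℂ) × (J → Fin a → ℂ)) := isMinOn_iff.1 hmin _ hx'
  exact h1

private theorem cr_left {a : ℕ} {J : Type} [Fintype J] [DecidableEq J] {lab : J → ℕ} {N : ℕ}
    {Φ : Set (ℕ → ℂ)} {κ : ℝ} {L : Matrix (Fin a) J ℂ} {R : Matrix J (Fin a) ℂ} (h : InY lab N Φ κ L R)
    (S0 : Matrix (Fin a) (Fin a) ℂ) (hS : S0.det = 1) : InY lab N Φ κ (S0 * L) R := by
  refine ⟨fun φ hφ => ?_, fun S T h1 h2 => ?_⟩
  · rw [Matrix.mul_assoc, Matrix.mul_assoc, ← Matrix.mul_assoc L, h.1 φ hφ, Matrix.mul_zero]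
  · have := h.2 (S * S0) T (by rw [det_mul, h1, hS, mul_one]) h2
    simpa only [tup, Matrix.mul_assoc] using this

private theorem cr_right {a : ℕ} {J : Type} [Fintype J] [DecidableEq J] {lab : J → ℕ} {N : ℕ}
    {Φ : Set (ℕ → ℂ)} {κ : ℝ} {L : Matrix (Fin a) J ℂ} {R : Matrix J (Fin a) ℂ} (h : InY lab N Φ κ L R)
    (T0 : Matrix (Fin a) (Fin a) ℂ) (hT : T0.det = 1) : InY lab N Φ κ L (R * T0) := by
  refine ⟨fun φ hφ => ?_, fun S T h1 h2 => ?_⟩
  · rw [← Matrix.mul_assoc, h.1 φ hφ, Matrix.zero_mul]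
  · have := h.2 S (T0 * T) h1 (by rw [det_mul, h2, hT, mul_one])
    simpa only [tup, Matrix.mul_assoc] using this

private theorem cr_mid {a : ℕ} {J : Type} [Fintype J] [DecidableEq J] {lab : J → ℕ} {N : ℕ}
    {Φ : Set (ℕ → ℂ)} {κ : ℝ} {L : Matrix (Fin a) J ℂ} {R : Matrix J (Fin a) ℂ} (h : InY lab N Φ κ L R)
    (g g' : Matrix J J ℂ) (hg : g' * g = 1)
    (hc : ∀ φ : ℕ → ℂ, diagonal (fun j => φ (lab j)) * g = g * diagonal (fun j => φ (lab j))) :
    InY lab N Φ κ (L * g') (g * R) := by
  have key : ∀ φ : ℕ → ℂ, (L * g') * dg lab φ * (g * R) = L * dg lab φ * R := by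
    intro φ
    calc (L * g') * dg lab φ * (g * R)
        = L * (g' * (diagonal (fun j => φ (lab j)) * g)) * R := by simp only [dg, Matrix.mul_assoc]
      _ = L * ((g' * g) * diagonal (fun j => φ (lab j))) * R := by rw [hc φ, Matrix.mul_assoc g']
      _ = _ := by rw [hg, Matrix.one_mul, dg]
  refine ⟨fun φ hφ => ?_, fun S T h1 h2 => ?_⟩
  · rw [key φ]
    exact h.1 φ hφ
  · refine (h.2 S T h1 h2).trans (le_of_eq (sum_congr rfl fun n _ => ?_))
    unfold tup
    rw [key]

private theorem cr_comm_transv {J : Type} [Fintype J] [DecidableEq J] (lab : J → ℕ) (i k : J) (t : ℂ)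
    (hik : lab i = lab k) (φ : ℕ → ℂ) :
    diagonal (fun j => φ (lab j)) * transvection i k t =
      transvection i k t * diagonal (fun j => φ (lab j)) := by
  ext x y
  rw [diagonal_mul, mul_diagonal, transvection, Matrix.add_apply]
  by_cases hxy : x = y
  · subst hxy; ring
  · rw [one_apply_ne hxy, zero_add]
    by_cases h : i = x ∧ k = y
    · obtain ⟨rfl, rfl⟩ := h
      rw [hik]; ring
    · rw [single_apply, if_neg h]; ring

private theorem cr_comm_diag {J : Type} [Fintype J] [DecidableEq J] (lab : J → ℕ) (d : J → ℂ)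
    (φ : ℕ → ℂ) :
    diagonal (fun j => φ (lab j)) * diagonal d = diagonal d * diagonal (fun j => φ (lab j)) := by
  rw [diagonal_mul_diagonal, diagonal_mul_diagonal]
  congr 1
  ext j
  exact mul_comm _ _

private theorem cr_diag_entry {m n : Type} [Fintype m] [Fintype n] (L : Matrix m n ℂ) (i : m) :
    (L * Lᴴ) i i = ((∑ j, Complex.normSq (L i j) : ℝ) : ℂ) := by
  rw [mul_apply]
  push_cast
  refine sum_congr rfl fun j _ => ?_
  rw [conjTranspose_apply, RCLike.star_def, Complex.mul_conj]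

private theorem cr_diag_entry' {m n : Type} [Fintype m] [Fintype n] (L : Matrix m n ℂ) (i : n) :
    (Lᴴ * L) i i = ((∑ j, Complex.normSq (L j i) : ℝ) : ℂ) := by
  rw [mul_apply]
  push_cast
  refine sum_congr rfl fun j _ => ?_
  rw [conjTranspose_apply, RCLike.star_def, mul_comm, Complex.mul_conj]

private theorem cr_sum_update {m : Type} [Fintype m] [DecidableEq m] (i : m) (c : ℂ) (w : m → ℝ) :
    ∑ l, Complex.normSq (Function.update (fun _ => (1 : ℂ)) i c l) * w l =
      ∑ l, w l + (Complex.normSq c - 1) * w i := by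
  have h : ∑ l, Complex.normSq (Function.update (fun _ => (1 : ℂ)) i c l) * w l - ∑ l, w l =
      (Complex.normSq c - 1) * w i := by
    rw [← sum_sub_distrib, sum_eq_single i]
    · rw [Function.update_self]; ring
    · intro b _ hb
      rw [Function.update_of_ne hb, Complex.normSq_one]; ring
    · intro h; exact absurd (mem_univ i) h
  linarith

private theorem cr_sum_update2 {m : Type} [Fintype m] [DecidableEq m] (i k : m) (hik : i ≠ k)
    (c d : ℂ) (w : m → ℝ) :
    ∑ l, Complex.normSq (Function.update (Function.update (fun _ => (1 : ℂ)) i c) k d l) * w l =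
      ∑ l, w l + ((Complex.normSq c - 1) * w i + (Complex.normSq d - 1) * w k) := by
  have h : ∑ l, Complex.normSq (Function.update (Function.update (fun _ => (1 : ℂ)) i c) k d l) * w l -
      ∑ l, Complex.normSq (Function.update (fun _ => (1 : ℂ)) i c l) * w l =
      (Complex.normSq d - 1) * w k := by
    rw [← sum_sub_distrib, sum_eq_single k]
    · rw [Function.update_self, Function.update_of_ne hik.symm, Complex.normSq_one]; ring
    · intro b _ hb
      rw [Function.update_of_ne hb]; ring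
    · intro h; exact absurd (mem_univ k) h
  have h2 := cr_sum_update i c w
  linarith

private theorem cr_det_update2 {m : Type} [Fintype m] [DecidableEq m] (i k : m) (hik : i ≠ k)
    (s : ℝ) (hs : 0 < s) : (diagonal (Function.update (Function.update (fun _ => (1 : ℂ)) i (s : ℂ)) k
      ((s⁻¹ : ℝ) : ℂ))).det = 1 := by
  have hs' : (s : ℂ) ≠ 0 := by exact_mod_cast hs.ne'
  rw [det_diagonal, ← mul_prod_erase univ _ (mem_univ k),
    ← mul_prod_erase (univ.erase k) _ (mem_erase.2 ⟨hik, mem_univ i⟩), prod_eq_one]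
  · rw [Function.update_self, Function.update_of_ne hik, Function.update_self]
    push_cast
    field_simp
  · intro l hl
    rw [mem_erase, mem_erase] at hl
    rw [Function.update_of_ne hl.2.1, Function.update_of_ne hl.1]

private theorem cr_balance {a : ℕ} (ha : 0 < a) {J : Type} [Fintype J] [DecidableEq J] (lab : J → ℕ)
    (N : ℕ) (Φ : Set (ℕ → ℂ)) (κ : ℝ) (hκ : 0 < κ) (L0 : Matrix (Fin a) J ℂ) (R0 : Matrix J (Fin a) ℂ)
    (h0 : InY lab N Φ κ L0 R0) : ∃ (L : Matrix (Fin a) J ℂ) (R : Matrix J (Fin a) ℂ) (μ : ℝ), 0 < μ ∧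
      (∀ φ ∈ Φ, L * dg lab φ * R = 0) ∧
      L * Lᴴ = (μ : ℂ) • (1 : Matrix (Fin a) (Fin a) ℂ) ∧
      Rᴴ * R = (μ : ℂ) • (1 : Matrix (Fin a) (Fin a) ℂ) ∧
      ∀ i j, lab i = lab j → (Lᴴ * L) i j = (R * Rᴴ) i j := by
  obtain ⟨L, R, hY, hmin⟩ := cr_exists_min lab N Φ κ L0 R0 h0
  have hLoff : ∀ i k : Fin a, i ≠ k → (L * Lᴴ) k i = 0 := by
    intro i k hik
    refine cr_quad _ (∑ j, Complex.normSq (L k j)) fun t => ?_
    have h1 := hmin _ _ (cr_left hY (transvection i k t) (det_transvection_of_ne i k hik t))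
    rw [cr_transv_left] at h1
    linarith
  have hRoff : ∀ i k : Fin a, i ≠ k → (Rᴴ * R) k i = 0 := by
    intro i k hik
    refine cr_quad _ (∑ j, Complex.normSq (R j i)) fun t => ?_
    have h1 := hmin _ _ (cr_right hY (transvection i k t) (det_transvection_of_ne i k hik t))
    rw [cr_transv_right] at h1
    linarith
  have hLdiag : ∀ i k : Fin a, ∑ j, Complex.normSq (L i j) = ∑ j, Complex.normSq (L k j) := by
    intro i k
    rcases eq_or_ne i k with rfl | hik
    · rfl
    refine cr_scale _ _ (sum_nonneg fun _ _ => Complex.normSq_nonneg _) fun s hs => ?_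
    have h1 := hmin _ _ (cr_left hY _ (cr_det_update2 i k hik s hs))
    rw [cr_diag_left, cr_sum_update2 i k hik] at h1
    have e : ∑ i, ∑ j, Complex.normSq (L i j) = frob L := (cr_frob L).symm
    rw [e, Complex.normSq_ofReal, Complex.normSq_ofReal] at h1
    nlinarith
  have hRdiag : ∀ i k : Fin a, ∑ j, Complex.normSq (R j i) = ∑ j, Complex.normSq (R j k) := by
    intro i k
    rcases eq_or_ne i k with rfl | hik
    · rfl
    refine cr_scale _ _ (sum_nonneg fun _ _ => Complex.normSq_nonneg _) fun s hs => ?_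
    have h1 := hmin _ _ (cr_right hY _ (cr_det_update2 i k hik s hs))
    rw [cr_diag_right, cr_sum_update2 i k hik] at h1
    have e : ∑ i, ∑ j, Complex.normSq (R j i) = frob R := by simp only [cr_frob]; rw [sum_comm]
    rw [e, Complex.normSq_ofReal, Complex.normSq_ofReal] at h1
    nlinarith
  have hoff : ∀ i k : J, i ≠ k → lab i = lab k → (Lᴴ * L) k i = (R * Rᴴ) k i := by
    intro i k hik hl
    have h2 : (R * Rᴴ) k i - (Lᴴ * L) k i = 0 := by
      refine cr_quad _ (∑ j, Complex.normSq (R k j) + ∑ j, Complex.normSq (L j i)) fun t => ?_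
      have h1 := hmin _ _ (cr_mid hY (transvection i k t) (transvection i k (-t))
        (by rw [transvection_mul_transvection_same i k hik, neg_add_cancel, transvection_zero])
        (cr_comm_transv lab i k t hl))
      rw [cr_transv_left, cr_transv_right, Complex.normSq_neg] at h1
      have e : (t * ((R * Rᴴ) k i - (Lᴴ * L) k i)).re =
          (t * (R * Rᴴ) k i).re + (-t * (Lᴴ * L) k i).re := by
        rw [← Complex.add_re]; congr 1; ring
      rw [e]
      linarith
    exact (sub_eq_zero.1 h2).symm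
  have hdiag : ∀ i : J, (Lᴴ * L) i i = (R * Rᴴ) i i := by
    intro i
    rw [cr_diag_entry', cr_diag_entry]
    congr 1
    symm
    refine cr_scale _ _ (sum_nonneg fun _ _ => Complex.normSq_nonneg _) fun s hs => ?_
    have hs' : (s : ℂ) ≠ 0 := by exact_mod_cast hs.ne'
    have h1 := hmin _ _ (cr_mid hY (diagonal (Function.update (fun _ => (1 : ℂ)) i (s : ℂ)))
      (diagonal (Function.update (fun _ => (1 : ℂ)) i ((s⁻¹ : ℝ) : ℂ)))
      (by
        rw [diagonal_mul_diagonal, ← diagonal_one]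
        congr 1
        ext j
        rcases eq_or_ne j i with rfl | hj
        · rw [Function.update_self, Function.update_self]
          push_cast
          field_simp
        · rw [Function.update_of_ne hj, Function.update_of_ne hj, mul_one])
      (cr_comm_diag lab _))
    rw [cr_diag_left, cr_diag_right, cr_sum_update, cr_sum_update] at h1
    have e1 : ∑ i, ∑ j, Complex.normSq (L j i) = frob L := by simp only [cr_frob]; rw [sum_comm]
    have e2 : ∑ i, ∑ j, Complex.normSq (R i j) = frob R := (cr_frob R).symm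
    rw [e1, e2, Complex.normSq_ofReal, Complex.normSq_ofReal] at h1
    nlinarith
  have hall : ∀ i j, lab i = lab j → (Lᴴ * L) i j = (R * Rᴴ) i j := by
    intro i j hij
    rcases eq_or_ne i j with rfl | hne
    · exact hdiag i
    · exact hoff j i hne.symm hij.symm
  set i0 : Fin a := ⟨0, ha⟩
  set μ := ∑ j, Complex.normSq (L i0 j) with hμ
  set μ' := ∑ j, Complex.normSq (R j i0) with hμ'
  have hLL : L * Lᴴ = (μ : ℂ) • (1 : Matrix (Fin a) (Fin a) ℂ) := by
    ext i k
    rw [Matrix.smul_apply, smul_eq_mul]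
    rcases eq_or_ne i k with rfl | hne
    · rw [cr_diag_entry, one_apply_eq, mul_one, hLdiag i i0]
    · rw [one_apply_ne hne, mul_zero, hLoff k i hne.symm]
  have hRR : Rᴴ * R = (μ' : ℂ) • (1 : Matrix (Fin a) (Fin a) ℂ) := by
    ext i k
    rw [Matrix.smul_apply, smul_eq_mul]
    rcases eq_or_ne i k with rfl | hne
    · rw [cr_diag_entry', one_apply_eq, mul_one, hRdiag i i0]
    · rw [one_apply_ne hne, mul_zero, hRoff k i hne.symm]
  have ha' : (a : ℂ) ≠ 0 := by exact_mod_cast ha.ne'
  have hμeq : μ = μ' := by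
    have h1 : (L * Lᴴ).trace = (Rᴴ * R).trace := by
      rw [trace_mul_comm, trace_mul_comm Rᴴ]
      unfold trace
      exact sum_congr rfl fun i _ => hdiag i
    rw [hLL, hRR, trace_smul, trace_smul, trace_one, Fintype.card_fin, smul_eq_mul, smul_eq_mul] at h1
    have h2 := mul_right_cancel₀ ha' h1
    exact_mod_cast h2
  have hμ0 : 0 ≤ μ := sum_nonneg fun _ _ => Complex.normSq_nonneg _
  refine ⟨L, R, μ, lt_of_le_of_ne hμ0 fun hz => ?_, hY.1, hLL, by rw [hRR, ← hμeq], hall⟩
  have hL0 : L = 0 := by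
    ext i j
    have h1 : ∑ j, Complex.normSq (L i j) = 0 := by rw [hLdiag i i0, ← hμ, ← hz]
    have h2 := (sum_eq_zero_iff_of_nonneg (fun _ _ => Complex.normSq_nonneg _)).1 h1 j (mem_univ j)
    exact Complex.normSq_eq_zero.1 h2
  have h1 := hY.2 1 1 det_one det_one
  rw [hL0] at h1
  simp only [tup, Matrix.zero_mul, Matrix.mul_zero, cr_frob, Matrix.zero_apply, Complex.normSq_zero,
    sum_const_zero] at h1
  linarith

theorem critical {a : ℕ} (ha : 0 < a) {J : Type} [Fintype J] [DecidableEq J] (lab : J → ℕ)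
    (L0 : Matrix (Fin a) J ℂ) (R0 : Matrix J (Fin a) ℂ) (c0 : ℝ) (hc0 : 0 < c0) (N : ℕ)
    (hcap : ∀ S T : Matrix (Fin a) (Fin a) ℂ, S.det = 1 → T.det = 1 →
      c0 ≤ ∑ n ∈ range N, frob (S * tup lab L0 R0 n * T)) :
    ∃ (L : Matrix (Fin a) J ℂ) (R : Matrix J (Fin a) ℂ),
      (∀ φ : ℕ → ℂ, L0 * dg lab φ * R0 = 0 → L * dg lab φ * R = 0) ∧
      L * Lᴴ = 1 ∧ Rᴴ * R = 1 ∧ ∀ i j, lab i = lab j → (Lᴴ * L) i j = (R * Rᴴ) i j := by
  obtain ⟨L, R, μ, hμ, h1, h2, h3, h4⟩ := cr_balance ha lab N {φ | L0 * dg lab φ * R0 = 0} c0 hc0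
    L0 R0 ⟨fun φ hφ => hφ, hcap⟩
  have hμ' : (μ : ℂ) ≠ 0 := by exact_mod_cast hμ.ne'
  set r : ℂ := (((Real.sqrt μ)⁻¹ : ℝ) : ℂ) with hr
  have hstar : star r = r := by
    rw [hr, RCLike.star_def, Complex.conj_ofReal]
  have hrr : r * r = (μ : ℂ)⁻¹ := by
    rw [hr, ← Complex.ofReal_mul, ← mul_inv, Real.mul_self_sqrt hμ.le, Complex.ofReal_inv]
  refine ⟨r • L, r • R, fun φ hφ => ?_, ?_, ?_, fun i j hij => ?_⟩
  · rw [Matrix.smul_mul, Matrix.smul_mul, Matrix.mul_smul, h1 φ hφ, smul_zero, smul_zero]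
  · rw [conjTranspose_smul, hstar, Matrix.smul_mul, Matrix.mul_smul, h2, smul_smul, smul_smul, hrr,
      inv_mul_cancel₀ hμ', one_smul]
  · rw [conjTranspose_smul, hstar, Matrix.smul_mul, Matrix.mul_smul, h3, smul_smul, smul_smul, hrr,
      inv_mul_cancel₀ hμ', one_smul]
  · rw [conjTranspose_smul, conjTranspose_smul, hstar, Matrix.smul_mul, Matrix.mul_smul,
      Matrix.smul_mul, Matrix.mul_smul, Matrix.smul_apply, Matrix.smul_apply, Matrix.smul_apply,
      Matrix.smul_apply, h4 i j hij]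

end Pool.Agent.KNM
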