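import Pool.Agent.KNM.FrobS

/-!
KNM-CritA.  Minimality under the block diagonal group gives equal blocks.

PLAN.  Let `P = Lᴴ * L`, `Q = R * Rᴴ` (both Hermitian).  For a vector `e : J → ℂ` of norm one (`∑ ‖e j‖^2 = 1`) supported on
one label class and `s > 0` put `E = vecMulVec e (star e)` (`E i j = e i * conj (e j)`, `E * E = E`, `Eᴴ = E`, block
diagonal), `g = 1 + (s-1) E`, `g' = 1 + (s⁻¹-1) E`: `g * g' = 1`.  With the trace formulas of `frob`:
`frob (g * R) = frob R + (s^2-1) * (e* Q e)`, `frob (L * g') = frob L + (s⁻²-1) * (e* P e)`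
(`frob (g*R) = trace (Rᴴ gᴴ g R)`, `g` Hermitian, `g*g = 1 + (s^2-1) E`), so `(s^2-1) q + (s⁻²-1) p ≥ 0` for all `s > 0`,
with `p, q ≥ 0` real: multiply by `s^2`: with `u = s^2`: `(u-1)(u q - p) ≥ 0` for all `u > 0`, hence `q = p`
(`u` slightly larger than 1 gives `q ≥ p`, slightly smaller gives `q ≤ p`).
So `e* P e = e* Q e` for all such unit vectors, hence (scaling) for all vectors supported on the class; taking
`e = δ_i`, `δ_i + δ_j`, `δ_i + I δ_j` gives `P i j = Q i j` for `i, j` in the same class (polarisation; `P`, `Q` Hermitian).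
-/

namespace Pool.Agent.KNM

open Matrix Polynomial Finset

private theorem critA_norm (a b : ℂ) (y : ℝ) :
    ‖a + (y : ℂ) * b‖ ^ 2 = ‖a‖ ^ 2 + 2 * y * (star a * b).re + y ^ 2 * ‖b‖ ^ 2 := by
  rw [← Complex.normSq_eq_norm_sq, ← Complex.normSq_eq_norm_sq, ← Complex.normSq_eq_norm_sq]
  simp [Complex.normSq_apply]
  ring

private theorem critA_frob {a : ℕ} {J : Type} [Fintype J] [DecidableEq J]
    (M : Matrix (Fin a) J ℂ) (e : J → ℂ) (y : ℝ) :
    frob (M * (1 + (y : ℂ) • vecMulVec e (star e))) =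
      frob M + (2 * y + y ^ 2 * ∑ j, ‖e j‖ ^ 2) * ∑ i, ‖(M *ᵥ e) i‖ ^ 2 := by
  have hent : ∀ i j, (M * (1 + (y : ℂ) • vecMulVec e (star e)) : Matrix (Fin a) J ℂ) i j =
      M i j + (y : ℂ) * ((M *ᵥ e) i * star (e j)) := by
    intro i j
    rw [Matrix.mul_add, Matrix.mul_one, Matrix.mul_smul, Matrix.mul_vecMulVec]
    simp [vecMulVec_apply]
  unfold frob
  rw [Finset.mul_sum, ← Finset.sum_add_distrib]
  refine Finset.sum_congr rfl fun i _ => ?_
  simp_rw [hent, critA_norm]
  rw [Finset.sum_add_distrib, Finset.sum_add_distrib, ← Finset.mul_sum, ← Finset.mul_sum]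
  have h1 : ∑ j, (star (M i j) * ((M *ᵥ e) i * star (e j))).re = ‖(M *ᵥ e) i‖ ^ 2 := by
    rw [← Complex.re_sum]
    have h2 : ∑ j, star (M i j) * ((M *ᵥ e) i * star (e j)) =
        (M *ᵥ e) i * star ((M *ᵥ e) i) := by
      have h3 : star ((M *ᵥ e) i) = ∑ j, star (M i j) * star (e j) := by
        simp only [Matrix.mulVec, dotProduct, star_sum, star_mul']
      rw [h3, Finset.mul_sum]
      exact Finset.sum_congr rfl fun j _ => by ring
    rw [h2]
    rw [← Complex.normSq_eq_norm_sq]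
    simp [Complex.normSq_apply]
  have h4 : ∑ j, ‖(M *ᵥ e) i * star (e j)‖ ^ 2 = (∑ j, ‖e j‖ ^ 2) * ‖(M *ᵥ e) i‖ ^ 2 := by
    rw [Finset.sum_mul]
    refine Finset.sum_congr rfl fun j _ => ?_
    rw [norm_mul, norm_star]
    ring
  rw [h1, h4]
  ring

private theorem critA_quad {a : ℕ} {J : Type} [Fintype J] [DecidableEq J]
    (M : Matrix (Fin a) J ℂ) (e : J → ℂ) :
    ((∑ i, ‖(M *ᵥ e) i‖ ^ 2 : ℝ) : ℂ) = star e ⬝ᵥ ((Mᴴ * M) *ᵥ e) := by
  rw [← Matrix.mulVec_mulVec, Matrix.dotProduct_mulVec, ← Matrix.star_mulVec]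
  simp only [dotProduct, Pi.star_apply]
  push_cast
  refine Finset.sum_congr rfl fun i _ => ?_
  rw [mul_comm]
  exact (Complex.mul_conj' _).symm

private theorem critA_eq {a : ℕ} {J : Type} [Fintype J] [DecidableEq J] (lab : J → ℕ)
    (L : Matrix (Fin a) J ℂ) (R : Matrix J (Fin a) ℂ)
    (hmin : ∀ g g' : Matrix J J ℂ, Blk lab g → Blk lab g' → g * g' = 1 →
      frob L + frob R ≤ frob (L * g') + frob (g * R)) (e : J → ℂ) (n : ℕ)
    (he : ∀ j, lab j ≠ n → e j = 0) (hne : e ≠ 0) :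
    ∑ i, ‖(L *ᵥ e) i‖ ^ 2 = ∑ i, ‖(Rᴴ *ᵥ e) i‖ ^ 2 := by
  obtain ⟨p, hp⟩ : ∃ p, p = ∑ i, ‖(L *ᵥ e) i‖ ^ 2 := ⟨_, rfl⟩
  obtain ⟨q, hq⟩ : ∃ q, q = ∑ i, ‖(Rᴴ *ᵥ e) i‖ ^ 2 := ⟨_, rfl⟩
  obtain ⟨N, hN⟩ : ∃ N, N = ∑ j, ‖e j‖ ^ 2 := ⟨_, rfl⟩
  rw [← hp, ← hq]
  have hp0 : 0 ≤ p := by rw [hp]; positivity
  have hq0 : 0 ≤ q := by rw [hq]; positivity
  have hN0 : 0 < N := by
    obtain ⟨j, hj⟩ : ∃ j, e j ≠ 0 := by
      by_contra hcon
      push Not at hcon
      exact hne (funext hcon)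
    rw [hN]
    refine Finset.sum_pos' (fun j _ => by positivity) ⟨j, Finset.mem_univ _, ?_⟩
    have : 0 < ‖e j‖ := norm_pos_iff.mpr hj
    positivity
  have hEH : (vecMulVec e (star e))ᴴ = vecMulVec e (star e) := by
    ext i j
    simp [vecMulVec_apply, mul_comm]
  have hEE : vecMulVec e (star e) * vecMulVec e (star e) = (N : ℂ) • vecMulVec e (star e) := by
    rw [Matrix.vecMulVec_mul_vecMulVec]
    have : star e ⬝ᵥ e = (N : ℂ) := by
      rw [hN]
      simp only [dotProduct, Pi.star_apply]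
      push_cast
      refine Finset.sum_congr rfl fun i _ => ?_
      rw [mul_comm]
      exact Complex.mul_conj' _
    rw [this]
    ext i j
    simp [vecMulVec_apply, mul_comm, mul_assoc, mul_left_comm]
  have hblk : ∀ c : ℂ, Blk lab (1 + c • vecMulVec e (star e)) := by
    intro c i j hij
    have hne' : i ≠ j := fun h => hij (by rw [h])
    have h0 : e i * star (e j) = 0 := by
      by_cases hi : lab i = n
      · rw [he j (by rw [← hi]; exact fun h => hij h.symm)]
        simp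
      · rw [he i hi]
        simp
    simp only [Matrix.add_apply, Matrix.one_apply_ne hne', Matrix.smul_apply, vecMulVec_apply,
      Pi.star_apply, smul_eq_mul, zero_add]
    rw [h0, mul_zero]
  -- the key inequality
  have key : ∀ s : ℝ, 0 < s → 0 ≤ (s ^ 2 - 1) * q + ((s⁻¹) ^ 2 - 1) * p := by
    intro s hs
    obtain ⟨x, hx⟩ : ∃ x : ℝ, x = (s - 1) / N := ⟨_, rfl⟩
    obtain ⟨y, hy⟩ : ∃ y : ℝ, y = (s⁻¹ - 1) / N := ⟨_, rfl⟩
    have hxy : x + y + x * y * N = 0 := by
      rw [hx, hy]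
      field_simp
      ring
    have hmul : (1 + (x : ℂ) • vecMulVec e (star e)) * (1 + (y : ℂ) • vecMulVec e (star e)) =
        1 := by
      rw [Matrix.add_mul, Matrix.mul_add, Matrix.mul_add, Matrix.one_mul, Matrix.one_mul,
        Matrix.mul_one, Matrix.smul_mul, Matrix.mul_smul, hEE, smul_smul, smul_smul]
      have h5 : ((x : ℂ)) + y + x * y * N = 0 := by
        have := congrArg (fun r : ℝ => (r : ℂ)) hxy
        push_cast at this
        linear_combination this
      have h6 : 1 + (y : ℂ) • vecMulVec e (star e) + ((x : ℂ) • vecMulVec e (star e) +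
          ((x : ℂ) * y * N) • vecMulVec e (star e)) =
          1 + ((x : ℂ) + y + x * y * N) • vecMulVec e (star e) := by
        rw [add_smul, add_smul]
        abel
      rw [h6, h5, zero_smul, add_zero]
    have h := hmin _ _ (hblk x) (hblk y) hmul
    have h7 : frob ((1 + (x : ℂ) • vecMulVec e (star e)) * R) =
        frob (Rᴴ * (1 + (x : ℂ) • vecMulVec e (star e))) := by
      rw [← frob_conjTranspose, Matrix.conjTranspose_mul, Matrix.conjTranspose_add,
        Matrix.conjTranspose_one, Matrix.conjTranspose_smul, hEH]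
      simp
    rw [h7, critA_frob, critA_frob, frob_conjTranspose, ← hp, ← hq, ← hN] at h
    have h8 : (2 * y + y ^ 2 * N) * N = (s⁻¹) ^ 2 - 1 := by
      rw [hy]
      field_simp
      ring
    have h9 : (2 * x + x ^ 2 * N) * N = s ^ 2 - 1 := by
      rw [hx]
      field_simp
      ring
    have h10 : 0 ≤ (2 * y + y ^ 2 * N) * p + (2 * x + x ^ 2 * N) * q := by linarith
    have h11 := mul_nonneg h10 hN0.le
    rw [← h8, ← h9]
    linarith [h11]
  -- choose the parameter
  have hd : 0 < 2 * q + 1 := by linarith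
  have hu0 : 0 < (p + q + 1) / (2 * q + 1) := by positivity
  obtain ⟨u, hu⟩ : ∃ u, u = (p + q + 1) / (2 * q + 1) := ⟨_, rfl⟩
  rw [← hu] at hu0
  have hk := key (Real.sqrt u) (Real.sqrt_pos.mpr hu0)
  rw [inv_pow, Real.sq_sqrt hu0.le] at hk
  have hk2 : 0 ≤ (u - 1) * (u * q - p) := by
    have := mul_nonneg hk hu0.le
    have h12 : ((u - 1) * q + (u⁻¹ - 1) * p) * u = (u - 1) * (u * q - p) := by
      field_simp
      ring
    rwa [h12] at this
  have hk3 : (u - 1) * (u * q - p) = -((p - q) ^ 2 * (q + 1) / (2 * q + 1) ^ 2) := by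
    rw [hu]
    field_simp
    ring
  rw [hk3] at hk2
  have hk4 : (p - q) ^ 2 * (q + 1) / (2 * q + 1) ^ 2 ≤ 0 := by linarith
  have hk5 : (p - q) ^ 2 ≤ 0 := by
    by_contra hcon
    push Not at hcon
    have : 0 < (p - q) ^ 2 * (q + 1) / (2 * q + 1) ^ 2 := by positivity
    linarith
  nlinarith [sq_nonneg (p - q)]

theorem crit_block {a : ℕ} {J : Type} [Fintype J] [DecidableEq J] (lab : J → ℕ)
    (L : Matrix (Fin a) J ℂ) (R : Matrix J (Fin a) ℂ)
    (hmin : ∀ g g' : Matrix J J ℂ, Blk lab g → Blk lab g' → g * g' = 1 →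
      frob L + frob R ≤ frob (L * g') + frob (g * R)) :
    ∀ i j, lab i = lab j → (Lᴴ * L) i j = (R * Rᴴ) i j := by
  intro i j hij
  obtain ⟨D, hD⟩ : ∃ D, D = Lᴴ * L - R * Rᴴ := ⟨_, rfl⟩
  have hquad : ∀ e : J → ℂ, (∀ k, lab k ≠ lab i → e k = 0) → star e ⬝ᵥ (D *ᵥ e) = 0 := by
    intro e he
    by_cases hne : e = 0
    · rw [hne]
      simp
    · have h1 := critA_eq lab L R hmin e (lab i) he hne
      have h2 := critA_quad L e
      have h3 := critA_quad Rᴴ e
      rw [Matrix.conjTranspose_conjTranspose] at h3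
      rw [hD, Matrix.sub_mulVec, dotProduct_sub, ← h2, ← h3, h1, sub_self]
  have hval : ∀ c : ℂ, ∀ k, lab k = lab i →
      D i i + c * D i k + star c * D k i + star c * c * D k k = 0 := by
    intro c k hk
    have h := hquad (Pi.single i 1 + c • Pi.single k 1) (by
      intro l hl
      have h1 : l ≠ i := fun h => hl (by rw [h])
      have h2 : l ≠ k := fun h => hl (by rw [h, hk])
      simp [h1, h2])
    simp only [star_add, star_smul, Matrix.mulVec_add, Matrix.mulVec_smul, add_dotProduct,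
      dotProduct_add, smul_dotProduct, dotProduct_smul, Matrix.mulVec_single_one] at h
    have hs : ∀ l : J, star (Pi.single l (1 : ℂ) : J → ℂ) = Pi.single l 1 := by
      intro l
      ext m
      by_cases hm : m = l
      · subst hm; simp
      · simp [hm]
    rw [hs, hs] at h
    simp only [single_dotProduct, one_mul, Matrix.col_apply, smul_eq_mul] at h
    linear_combination h
  have e0 := hval 0 i rfl
  have ei := hval 0 j hij.symm
  have hii : D i i = 0 := by simpa using e0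
  have h1 := hval 1 j hij.symm
  have h2 := hval (-1) j hij.symm
  have h3 := hval Complex.I j hij.symm
  simp only [star_one, star_neg, hii] at h1 h2 h3
  have h4 : D j j = 0 := by linear_combination (1 / 2 : ℂ) * h1 + (1 / 2 : ℂ) * h2
  rw [h4] at h1 h3
  have hI : star Complex.I = -Complex.I := Complex.conj_I
  rw [hI] at h3
  have h5 : D i j = 0 := by
    linear_combination (1 / 2 : ℂ) * h1 - (Complex.I / 2) * h3 + ((D i j - D j i) / 2) * Complex.I_sq
  have h6 : (Lᴴ * L - R * Rᴴ) i j = 0 := by rw [← hD]; exact h5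
  rw [Matrix.sub_apply] at h6
  exact sub_eq_zero.mp h6

end Pool.Agent.KNM
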