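import Mathlib

/-!
PROJECT KNM (architect helper65): the label-free merging theorem for known-order ROABPs.
Paper proof: /team-store/kno_h65b.md (Theorem M).  All statements over the complex numbers.

Definitions:
* `qq Pi` the merging polynomial `∏ p ∈ Pi, (X ^ p - 1)`;
* `frob M` the square of the Frobenius norm;
* `NoShrink C` : the tuple `C 0, C 1, ...` of `a × a` matrices has no shrunk subspace;
* `dg lab φ` the diagonal matrix with the entries `φ (lab j)`;
* `tup lab L R n = L * dg lab (indicator of n) * R`;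
* `Blk lab g` : the matrix `g` is block diagonal for the labels;
* `cf L u` the matrix of the coefficients of `X ^ u`;
* `Low k L R`, `lt k L R`, `Kil q L R`, `dt α β L R` for `M(x,y) = L(x) R(y)`.
-/

namespace Pool.Agent.KNM

open Matrix Polynomial Finset

/-- the merging polynomial -/
noncomputable def qq (Pi : Finset ℕ) : ℂ[X] := ∏ p ∈ Pi, (X ^ p - 1)

/-- the square of the Frobenius norm -/
noncomputable def frob {I J : Type*} [Fintype I] [Fintype J] (M : Matrix I J ℂ) : ℝ :=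
  ∑ i, ∑ j, ‖M i j‖ ^ 2

/-- no shrunk subspace -/
def NoShrink {a : ℕ} (C : ℕ → Matrix (Fin a) (Fin a) ℂ) : Prop :=
  ∀ A : Submodule ℂ (Fin a → ℂ), Module.finrank ℂ A ≤
    Module.finrank ℂ ((⨆ n, A.map (C n).mulVecLin : Submodule ℂ (Fin a → ℂ)))

/-- the diagonal matrix with entries `φ (lab j)` -/
def dg {J : Type*} [DecidableEq J] (lab : J → ℕ) (φ : ℕ → ℂ) : Matrix J J ℂ :=
  Matrix.diagonal fun j => φ (lab j)

/-- the matrix of label `n` -/
def tup {a : ℕ} {J : Type*} [Fintype J] [DecidableEq J] (lab : J → ℕ)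
    (L : Matrix (Fin a) J ℂ) (R : Matrix J (Fin a) ℂ) (n : ℕ) : Matrix (Fin a) (Fin a) ℂ :=
  L * dg lab (fun k => if k = n then 1 else 0) * R

/-- block diagonal for the labels -/
def Blk {J : Type*} (lab : J → ℕ) (g : Matrix J J ℂ) : Prop := ∀ i j, lab i ≠ lab j → g i j = 0

/-- the matrix of the coefficients of `X ^ u` -/
noncomputable def cf {I J : Type*} (L : Matrix I J ℂ[X]) (u : ℕ) : Matrix I J ℂ :=
  L.map fun f => f.coeff u

/-- all monomials `x ^ u y ^ v` of `L(x) R(y)` have `u + v ≥ k` -/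
def Low {a m : ℕ} (k : ℕ) (L : Matrix (Fin a) (Fin m) ℂ[X]) (R : Matrix (Fin m) (Fin a) ℂ[X]) :
    Prop := ∀ u v, u + v < k → cf L u * cf R v = 0

/-- the coefficients of the homogeneous component of degree `k` of `L(x) R(y)`:
`lt k L R n` belongs to `x ^ (k - n) y ^ n` -/
noncomputable def lt {a m : ℕ} (k : ℕ) (L : Matrix (Fin a) (Fin m) ℂ[X])
    (R : Matrix (Fin m) (Fin a) ℂ[X]) (n : ℕ) : Matrix (Fin a) (Fin a) ℂ :=
  if n ≤ k then cf L (k - n) * cf R n else 0

/-- `L(q(z)) R(z q(z)) = 0` -/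
def Kil {a m : ℕ} (q : ℂ[X]) (L : Matrix (Fin a) (Fin m) ℂ[X])
    (R : Matrix (Fin m) (Fin a) ℂ[X]) : Prop :=
  ∀ i j, ∑ k, (L i k).comp q * (R k j).comp (X * q) = 0

/-- `det (L(α t) R(β t))` as a polynomial in `t` -/
noncomputable def dt {a m : ℕ} (α β : ℂ) (L : Matrix (Fin a) (Fin m) ℂ[X])
    (R : Matrix (Fin m) (Fin a) ℂ[X]) : ℂ[X] :=
  (L.map (fun f => f.comp (Polynomial.C α * X)) *
    R.map (fun f => f.comp (Polynomial.C β * X))).det

/-- all `a`-minors of the kernel `G` vanish -/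
def MV {A B : Type*} (G : A → B → ℂ) (a : ℕ) : Prop :=
  ∀ (s : Fin a → A) (t : Fin a → B), (Matrix.of fun i j => G (s i) (t j)).det = 0

end Pool.Agent.KNM
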