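import Mathlib

/-!
# KNM/Flag: the sum of the ranks of the lowest form

`Lc u * Rc v = 0` for `u + v < k`.  The matrices `Lc (k - n) * Rc n`, `n ≤ k`, have a common factorisation
`L * D_n * R` through a labelled set `J` with at most `m` elements.
-/

set_option autoImplicit false

namespace Pool.Agent.KNM

open Finset

/-- rank factorisation -/
private theorem flag_fac {a : ℕ} (C : Matrix (Fin a) (Fin a) ℂ) :
    ∃ (A : Matrix (Fin a) (Fin C.rank) ℂ) (B : Matrix (Fin C.rank) (Fin a) ℂ), A * B = C := by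
  let b : Module.Basis (Fin C.rank) ℂ (LinearMap.range C.mulVecLin) := Module.finBasis ℂ _
  refine ⟨Matrix.of fun i s => (b s : Fin a → ℂ) i,
    Matrix.of fun s j => b.repr ⟨C.mulVecLin (Pi.single j 1), LinearMap.mem_range_self _ _⟩ s, ?_⟩
  ext i j
  have h1 := b.sum_repr ⟨C.mulVecLin (Pi.single j 1), LinearMap.mem_range_self _ _⟩
  have h2 := congrArg (fun v : LinearMap.range C.mulVecLin => (v : Fin a → ℂ) i) h1
  simp only [Submodule.coe_sum, Submodule.coe_smul, Finset.sum_apply, Pi.smul_apply, smul_eq_mul] at h2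
  rw [Matrix.mul_apply]
  have h3 : C.mulVecLin (Pi.single j 1) i = C i j := by
    simp [Matrix.mulVec_single]
  rw [← h3, ← h2]
  exact Finset.sum_congr rfl fun s _ => mul_comm _ _

/-- the flag -/
private noncomputable def flagW {a m : ℕ} (Rc : ℕ → Matrix (Fin m) (Fin a) ℂ) : ℕ → Submodule ℂ (Fin m → ℂ)
  | 0 => ⊥
  | n + 1 => flagW Rc n ⊔ LinearMap.range (Rc n).mulVecLin

private theorem flag_ker {a m k : ℕ} (Lc : ℕ → Matrix (Fin a) (Fin m) ℂ) (Rc : ℕ → Matrix (Fin m) (Fin a) ℂ)
    (hord : ∀ u v, u + v < k → Lc u * Rc v = 0) (u : ℕ) :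
    ∀ n, u + n ≤ k → flagW Rc n ≤ LinearMap.ker (Lc u).mulVecLin
  | 0, _ => bot_le
  | n + 1, h => by
    refine sup_le (flag_ker Lc Rc hord u n (by omega)) ?_
    rintro _ ⟨x, rfl⟩
    rw [LinearMap.mem_ker, Matrix.mulVecLin_apply, Matrix.mulVecLin_apply, Matrix.mulVec_mulVec,
      hord u n (by omega), Matrix.zero_mulVec]

private theorem flag_rank {a m k : ℕ} (Lc : ℕ → Matrix (Fin a) (Fin m) ℂ) (Rc : ℕ → Matrix (Fin m) (Fin a) ℂ)
    (hord : ∀ u v, u + v < k → Lc u * Rc v = 0) (n : ℕ) (hn : n ≤ k) :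
    (Lc (k - n) * Rc n).rank + Module.finrank ℂ (flagW Rc n) ≤ Module.finrank ℂ (flagW Rc (n + 1)) := by
  have hk := flag_ker Lc Rc hord (k - n) n (by omega)
  set g := (Lc (k - n)).mulVecLin with hg
  have h1 := LinearMap.finrank_range_add_finrank_ker (g.domRestrict (flagW Rc (n + 1)))
  have h2 : (Lc (k - n) * Rc n).rank ≤ Module.finrank ℂ (LinearMap.range (g.domRestrict (flagW Rc (n + 1)))) := by
    refine Submodule.finrank_mono ?_
    rintro _ ⟨x, rfl⟩
    have hm : (Rc n).mulVecLin x ∈ flagW Rc (n + 1) := Submodule.mem_sup_right (LinearMap.mem_range_self _ _)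
    refine ⟨⟨(Rc n).mulVecLin x, hm⟩, ?_⟩
    rw [LinearMap.domRestrict_apply, hg]
    show (Lc (k - n)).mulVec ((Rc n).mulVec x) = (Lc (k - n) * Rc n).mulVec x
    rw [Matrix.mulVec_mulVec]
  have hle : flagW Rc n ≤ flagW Rc (n + 1) := le_sup_left
  have h3 : Module.finrank ℂ (flagW Rc n) ≤ Module.finrank ℂ (LinearMap.ker (g.domRestrict (flagW Rc (n + 1)))) := by
    refine LinearMap.finrank_le_finrank_of_injective
      (f := ((Submodule.inclusion hle).codRestrict (LinearMap.ker (g.domRestrict (flagW Rc (n + 1)))) ?_)) ?_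
    · intro x
      rw [LinearMap.mem_ker, LinearMap.domRestrict_apply]
      exact hk x.2
    · intro x y hxy
      have h4 := congrArg Subtype.val hxy
      exact Submodule.inclusion_injective hle h4
  omega

theorem flag {a m k : ℕ} (Lc : ℕ → Matrix (Fin a) (Fin m) ℂ) (Rc : ℕ → Matrix (Fin m) (Fin a) ℂ)
    (hord : ∀ u v, u + v < k → Lc u * Rc v = 0) :
    ∃ (J : Type) (_ : Fintype J) (_ : DecidableEq J) (lab : J → ℕ) (L : Matrix (Fin a) J ℂ)
      (R : Matrix J (Fin a) ℂ), Fintype.card J ≤ m ∧ (∀ j, lab j ≤ k) ∧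
        ∀ n, L * Matrix.diagonal (fun j => if lab j = n then (1 : ℂ) else 0) * R =
          if n ≤ k then Lc (k - n) * Rc n else 0 := by
  classical
  choose A B hAB using fun n : ℕ => flag_fac (Lc (k - n) * Rc n)
  refine ⟨Σ n : Fin (k + 1), Fin (Lc (k - n.1) * Rc n.1).rank, inferInstance, inferInstance, fun j => j.1.1,
    Matrix.of fun i j => A j.1.1 i j.2, Matrix.of fun j i => B j.1.1 j.2 i, ?_,
    fun j => Nat.lt_succ_iff.1 j.1.2, ?_⟩
  · rw [Fintype.card_sigma]
    simp only [Fintype.card_fin]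
    rw [Fin.sum_univ_eq_sum_range (fun n => (Lc (k - n) * Rc n).rank) (k + 1)]
    have h1 : ∀ t, t ≤ k + 1 → ∑ n ∈ range t, (Lc (k - n) * Rc n).rank ≤ Module.finrank ℂ (flagW Rc t) := by
      intro t
      induction t with
      | zero => intro _; simp
      | succ t ih =>
        intro ht
        rw [Finset.sum_range_succ]
        have h2 := flag_rank Lc Rc hord t (by omega)
        have h3 := ih (by omega)
        omega
    refine (h1 (k + 1) le_rfl).trans ?_
    have h4 := Submodule.finrank_le (flagW Rc (k + 1))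
    simpa using h4
  · intro n
    ext i i'
    rw [Matrix.mul_assoc, Matrix.mul_apply]
    simp only [Matrix.diagonal_mul, Matrix.of_apply]
    rw [Fintype.sum_sigma]
    have h5 : ∀ t : Fin (k + 1), ∑ s : Fin (Lc (k - t.1) * Rc t.1).rank,
        A t.1 i s * ((if t.1 = n then (1 : ℂ) else 0) * B t.1 s i') =
        if t.1 = n then (Lc (k - t.1) * Rc t.1) i i' else 0 := by
      intro t
      split_ifs with h
      · conv_rhs => rw [← hAB t.1]
        rw [Matrix.mul_apply]
        exact Finset.sum_congr rfl fun s _ => by rw [one_mul]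
      · simp
    rw [Finset.sum_congr rfl fun t _ => h5 t]
    rw [Fin.sum_univ_eq_sum_range (fun t => if t = n then (Lc (k - t) * Rc t) i i' else 0) (k + 1),
      Finset.sum_ite_eq' (range (k + 1)) n fun t => (Lc (k - t) * Rc t) i i']
    by_cases h : n ≤ k
    · rw [if_pos (Finset.mem_range.2 (by omega)), if_pos h]
    · rw [if_neg (fun h' => h (by rw [Finset.mem_range] at h'; omega)), if_neg h]
      rfl

end Pool.Agent.KNM
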