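import Mathlib

/-!
# KNM/Fold: the lowest form of a killed product

`q = ∏ p ∈ Π, (z ^ p - 1)`.  If `L(q(z)) R(z q(z)) = 0` and the coefficients `L_u R_v` of `L(x) R(y)` vanish for `u + v < k`,
then the sums of the coefficients `L_(k-n) R_n`, `n = c mod p`, vanish for all `p ∈ Π`.
-/

set_option autoImplicit false

namespace Pool.Agent.KNM

open Polynomial Finset

private theorem fold_cls (p c : ℕ) : ∃ φ : ℂ[X] →ₗ[ℂ] ℂ,
    (∀ (n : ℕ) (a : ℂ), φ (monomial n a) = if n % p = c then a else 0) ∧ ∀ h : ℂ[X], φ ((X ^ p - 1) * h) = 0 := by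
  have h1 : ∀ (n : ℕ) (a : ℂ), Polynomial.lsum (fun n => if n % p = c then (LinearMap.id : ℂ →ₗ[ℂ] ℂ) else 0)
      (monomial n a) = if n % p = c then a else 0 := by
    intro n a
    rw [lsum_apply, sum_monomial_index]
    · split_ifs <;> simp
    · simp
  refine ⟨Polynomial.lsum (fun n => if n % p = c then (LinearMap.id : ℂ →ₗ[ℂ] ℂ) else 0), h1, fun h => ?_⟩
  induction h using Polynomial.induction_on' with
  | add f g hf hg => rw [mul_add, map_add, hf, hg, add_zero]
  | monomial n a =>
    rw [sub_mul, one_mul, X_pow_mul_monomial, map_sub, h1, h1, Nat.add_mod_right, sub_self]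

private theorem fold_sc {m k : ℕ} (l r : Fin m → ℂ[X]) (q : ℂ[X]) (hq : q ≠ 0)
    (hord : ∀ u v, u + v < k → ∑ s, (l s).coeff u * (r s).coeff v = 0)
    (hkill : ∑ s, (l s).comp q * (r s).comp (X * q) = 0) :
    q ∣ ∑ n ∈ range (k + 1), monomial n (∑ s, (l s).coeff (k - n) * (r s).coeff n) := by
  obtain ⟨N, hNl, hNr, hNk⟩ : ∃ N : ℕ, (∀ s, (l s).natDegree < N) ∧ (∀ s, (r s).natDegree < N) ∧ k < N := by
    refine ⟨(∑ s, ((l s).natDegree + (r s).natDegree)) + k + 1, fun s => ?_, fun s => ?_, by omega⟩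
    · have := Finset.single_le_sum (f := fun s => (l s).natDegree + (r s).natDegree) (fun _ _ => Nat.zero_le _)
        (Finset.mem_univ s)
      omega
    · have := Finset.single_le_sum (f := fun s => (l s).natDegree + (r s).natDegree) (fun _ _ => Nat.zero_le _)
        (Finset.mem_univ s)
      omega
  set A : ℕ → ℕ → ℂ := fun u v => ∑ s, (l s).coeff u * (r s).coeff v with hA
  have e1 : ∑ s, (l s).comp q * (r s).comp (X * q) =
      ∑ u ∈ range N, ∑ v ∈ range N, C (A u v) * X ^ v * q ^ (u + v) := by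
    have h1 : ∀ s, (l s).comp q * (r s).comp (X * q) =
        ∑ u ∈ range N, ∑ v ∈ range N, C ((l s).coeff u * (r s).coeff v) * X ^ v * q ^ (u + v) := by
      intro s
      rw [Polynomial.comp, Polynomial.comp, eval₂_eq_sum_range' C (hNl s) q, eval₂_eq_sum_range' C (hNr s) (X * q),
        Finset.sum_mul_sum]
      refine Finset.sum_congr rfl fun u _ => Finset.sum_congr rfl fun v _ => ?_
      rw [C_mul, mul_pow, pow_add]
      ring
    rw [Finset.sum_congr rfl fun s _ => h1 s, Finset.sum_comm]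
    refine Finset.sum_congr rfl fun u _ => ?_
    rw [Finset.sum_comm]
    refine Finset.sum_congr rfl fun v _ => ?_
    rw [hA]
    simp only [map_sum, Finset.sum_mul]
  have e2 : ∑ u ∈ range N, ∑ v ∈ range N, C (A u v) * X ^ v * q ^ (u + v) =
      q ^ k * ∑ u ∈ range N, ∑ v ∈ range N, (if k ≤ u + v then C (A u v) * X ^ v * q ^ (u + v - k) else 0) := by
    rw [Finset.mul_sum]
    refine Finset.sum_congr rfl fun u _ => ?_
    rw [Finset.mul_sum]
    refine Finset.sum_congr rfl fun v _ => ?_
    split_ifs with h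
    · have h3 : q ^ (u + v) = q ^ k * q ^ (u + v - k) := by rw [← pow_add]; congr 1; omega
      rw [h3]
      ring
    · have h3 : A u v = 0 := hord u v (by omega)
      rw [h3]
      simp
  have e3 : ∑ u ∈ range N, ∑ v ∈ range N, (if k ≤ u + v then C (A u v) * X ^ v * q ^ (u + v - k) else 0) = 0 := by
    have h4 : q ^ k * ∑ u ∈ range N, ∑ v ∈ range N, (if k ≤ u + v then C (A u v) * X ^ v * q ^ (u + v - k) else 0) =
        0 := by rw [← e2, ← e1, hkill]
    exact (mul_eq_zero.1 h4).resolve_left (pow_ne_zero k hq)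
  have e4 : ∑ n ∈ range (k + 1), monomial n (∑ s, (l s).coeff (k - n) * (r s).coeff n) =
      ∑ u ∈ range N, ∑ v ∈ range N, (if u + v = k then C (A u v) * X ^ v else 0) := by
    rw [Finset.sum_comm]
    have h5 : ∀ v ∈ range N, ∑ u ∈ range N, (if u + v = k then C (A u v) * X ^ v else (0 : ℂ[X])) =
        if v < k + 1 then monomial v (A (k - v) v) else 0 := by
      intro v _
      split_ifs with h
      · rw [Finset.sum_eq_single (k - v)]
        · rw [if_pos (by omega), C_mul_X_pow_eq_monomial]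
        · intro u _ hu
          rw [if_neg (by omega)]
        · intro hu
          exact absurd (Finset.mem_range.2 (by omega)) hu
      · refine Finset.sum_eq_zero fun u _ => ?_
        rw [if_neg (by omega)]
    rw [Finset.sum_congr rfl h5, ← Finset.sum_filter]
    refine Finset.sum_congr ?_ fun n _ => rfl
    ext n
    simp only [Finset.mem_filter, Finset.mem_range]
    omega
  rw [e4]
  have e5 : ∑ u ∈ range N, ∑ v ∈ range N, (if u + v = k then C (A u v) * X ^ v else 0) =
      ∑ u ∈ range N, ∑ v ∈ range N, ((if u + v = k then C (A u v) * X ^ v else 0) -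
        (if k ≤ u + v then C (A u v) * X ^ v * q ^ (u + v - k) else 0)) := by
    simp only [Finset.sum_sub_distrib]
    rw [e3, sub_zero]
  rw [e5]
  refine Finset.dvd_sum fun u _ => Finset.dvd_sum fun v _ => ?_
  rcases lt_trichotomy (u + v) k with h | h | h
  · rw [if_neg (by omega), if_neg (by omega), sub_zero]
    exact dvd_zero q
  · rw [if_pos h, if_pos (by omega), h, Nat.sub_self, pow_zero, mul_one, sub_self]
    exact dvd_zero q
  · rw [if_neg (by omega), if_pos (by omega), zero_sub, dvd_neg]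
    exact Dvd.dvd.mul_left (dvd_pow_self q (by omega)) _

theorem fold {a m k : ℕ} (L : Matrix (Fin a) (Fin m) ℂ[X]) (R : Matrix (Fin m) (Fin a) ℂ[X]) (Pi : Finset ℕ)
    (hpos : ∀ p ∈ Pi, 0 < p)
    (hord : ∀ u v, u + v < k → L.map (fun f => f.coeff u) * R.map (fun f => f.coeff v) = 0)
    (hkill : L.map (fun f => f.comp (∏ p ∈ Pi, (X ^ p - 1))) *
      R.map (fun f => f.comp (X * ∏ p ∈ Pi, (X ^ p - 1))) = 0) :
    ∀ p ∈ Pi, ∀ c : ℕ, ∑ n ∈ (range (k + 1)).filter (fun n => n % p = c),
      L.map (fun f => f.coeff (k - n)) * R.map (fun f => f.coeff n) = 0 := by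
  intro p hp c
  have hq : (∏ p ∈ Pi, (X ^ p - 1) : ℂ[X]) ≠ 0 := by
    refine Finset.prod_ne_zero_iff.2 fun p hp => ?_
    have := X_pow_sub_C_ne_zero (R := ℂ) (hpos p hp) 1
    simpa using this
  obtain ⟨φ, h1, h2⟩ := fold_cls p c
  ext i j
  have h3 := fold_sc (k := k) (fun s => L i s) (fun s => R s j) (∏ p ∈ Pi, (X ^ p - 1)) hq
    (fun u v huv => by
      have h := congrFun (congrFun (hord u v huv) i) j
      simpa [Matrix.mul_apply] using h)
    (by
      have h := congrFun (congrFun hkill i) j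
      simpa [Matrix.mul_apply] using h)
  obtain ⟨g, hg⟩ := (Finset.dvd_prod_of_mem (fun p => (X ^ p - 1 : ℂ[X])) hp).trans h3
  have h4 : φ (∑ n ∈ range (k + 1), monomial n (∑ s, (L i s).coeff (k - n) * (R s j).coeff n)) = 0 := by
    rw [hg]
    exact h2 g
  rw [map_sum] at h4
  simp only [h1] at h4
  rw [← Finset.sum_filter] at h4
  rw [Matrix.sum_apply, Matrix.zero_apply]
  simpa [Matrix.mul_apply] using h4

end Pool.Agent.KNM
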