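import Pool.Agent.KNM.FrobS

/-!
KNM-HS.  The Hilbert-Schmidt inequality.
-/

namespace Pool.Agent.KNM

open Matrix Polynomial Finset

private theorem hs_zero {a : ℕ} {J : Type} [Fintype J] [DecidableEq J] (L : Matrix (Fin a) J ℂ)
    (R : Matrix J (Fin a) ℂ) (D : J → ℂ) (h : L * Matrix.diagonal D * R = 0) :
    ∑ i, ∑ j, D i * D j * ((Lᴴ * L) i j * (R * Rᴴ) j i) = 0 := by
  have h1 : Matrix.diagonal D * (Lᴴ * L) * Matrix.diagonal D * (R * Rᴴ) = 0 := by
    have h2 : Matrix.diagonal D * (Lᴴ * L) * Matrix.diagonal D * (R * Rᴴ) =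
        Matrix.diagonal D * Lᴴ * (L * Matrix.diagonal D * R) * Rᴴ := by
      simp only [Matrix.mul_assoc]
    rw [h2, h, Matrix.mul_zero, Matrix.zero_mul]
  have h3 := congrArg Matrix.trace h1
  rw [Matrix.trace_zero] at h3
  rw [← h3, Matrix.trace]
  refine Finset.sum_congr rfl fun i _ => ?_
  rw [Matrix.diag_apply, Matrix.mul_apply]
  refine Finset.sum_congr rfl fun j _ => ?_
  rw [Matrix.mul_diagonal, Matrix.diagonal_mul]
  ring

/-- the number of classes counts coincidences -/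
private theorem hs_class {J : Type} [Fintype J] [DecidableEq J] (f : J → ℕ) (i j : J) :
    ∑ c ∈ Finset.univ.image f, (if f i = c then (1 : ℂ) else 0) * (if f j = c then 1 else 0) =
      if f i = f j then 1 else 0 := by
  rw [Finset.sum_eq_single (f i)]
  · by_cases h : f i = f j
    · simp [h]
    · rw [if_pos rfl, if_neg (Ne.symm h), if_neg h, mul_zero]
  · intro c _ hc
    rw [if_neg (Ne.symm hc), zero_mul]
  · intro h
    exact absurd (Finset.mem_image_of_mem f (Finset.mem_univ i)) h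

theorem hs {a : ℕ} {J : Type} [Fintype J] [DecidableEq J] (lab : J → ℕ)
    (L : Matrix (Fin a) J ℂ) (R : Matrix J (Fin a) ℂ) (hL : L * Lᴴ = 1) (hR : Rᴴ * R = 1)
    (hb : ∀ i j, lab i = lab j → (Lᴴ * L) i j = (R * Rᴴ) i j) (Pi : Finset ℕ) (ν : ℕ)
    (hfold : ∀ p ∈ Pi, ∀ c : ℕ, L * dg lab (fun n => if n % p = c then 1 else 0) * R = 0)
    (hν : ∀ i j, lab i ≠ lab j → (Pi.filter (fun p => lab i % p = lab j % p)).card ≤ ν) :
    a * Pi.card ≤ ν * Fintype.card J := by
  rcases Nat.eq_zero_or_pos a with ha | ha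
  · rw [ha, Nat.zero_mul]
    exact Nat.zero_le _
  obtain ⟨P, hP⟩ : ∃ P, P = Lᴴ * L := ⟨_, rfl⟩
  obtain ⟨Q, hQ⟩ : ∃ Q, Q = R * Rᴴ := ⟨_, rfl⟩
  have hPh : Pᴴ = P := by
    rw [hP, Matrix.conjTranspose_mul, Matrix.conjTranspose_conjTranspose]
  have hQh : Qᴴ = Q := by
    rw [hQ, Matrix.conjTranspose_mul, Matrix.conjTranspose_conjTranspose]
  have htrP : P.trace = (a : ℂ) := by
    rw [hP, Matrix.trace_mul_comm, hL, Matrix.trace_one, Fintype.card_fin]
  have htrQ : Q.trace = (a : ℂ) := by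
    rw [hQ, Matrix.trace_mul_comm, hR, Matrix.trace_one, Fintype.card_fin]
  have hPP : P * P = P := by
    have h1 : P * P = Lᴴ * (L * Lᴴ) * L := by
      rw [hP]
      simp only [Matrix.mul_assoc]
    rw [h1, hL, Matrix.mul_one, ← hP]
  have hQQ : Q * Q = Q := by
    have h1 : Q * Q = R * (Rᴴ * R) * Rᴴ := by
      rw [hQ]
      simp only [Matrix.mul_assoc]
    rw [h1, hR, Matrix.mul_one, ← hQ]
  have hfP : frob P = a := by
    have h1 := frob_trace P
    rw [hPh, hPP, htrP] at h1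
    exact_mod_cast h1
  have hfQ : frob Q = a := by
    have h1 := frob_trace Q
    rw [hQh, hQQ, htrQ] at h1
    exact_mod_cast h1
  -- the relation for one `p`
  have hp : ∀ p ∈ Pi, ∑ i, ∑ j, (if lab i % p = lab j % p then (1 : ℂ) else 0) * (P i j * Q j i) = 0 := by
    intro p hpPi
    have h1 : ∀ c ∈ Finset.univ.image (fun i => lab i % p), ∑ i, ∑ j, (if lab i % p = c then (1 : ℂ) else 0) *
        (if lab j % p = c then 1 else 0) * (P i j * Q j i) = 0 := by
      intro c _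
      have h2 := hs_zero L R (fun j => if lab j % p = c then (1 : ℂ) else 0) (hfold p hpPi c)
      rw [← hP, ← hQ] at h2
      exact h2
    have h3 : ∑ c ∈ Finset.univ.image (fun i => lab i % p), ∑ i, ∑ j, (if lab i % p = c then (1 : ℂ) else 0) *
        (if lab j % p = c then 1 else 0) * (P i j * Q j i) = 0 := Finset.sum_eq_zero h1
    rw [Finset.sum_comm] at h3
    refine Eq.trans ?_ h3
    refine Finset.sum_congr rfl fun i _ => ?_
    rw [Finset.sum_comm]
    refine Finset.sum_congr rfl fun j _ => ?_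
    rw [← Finset.sum_mul, hs_class (fun i => lab i % p) i j]
  -- the sum over `p`
  have hk : ∑ i, ∑ j, ((Pi.filter (fun p => lab i % p = lab j % p)).card : ℂ) * (P i j * Q j i) = 0 := by
    have h3 : ∑ p ∈ Pi, ∑ i, ∑ j, (if lab i % p = lab j % p then (1 : ℂ) else 0) * (P i j * Q j i) = 0 :=
      Finset.sum_eq_zero hp
    rw [Finset.sum_comm] at h3
    rw [← h3]
    refine Finset.sum_congr rfl fun i _ => ?_
    rw [Finset.sum_comm]
    refine Finset.sum_congr rfl fun j _ => ?_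
    rw [← Finset.sum_mul, Finset.sum_ite, Finset.sum_const_zero, add_zero, Finset.sum_const, nsmul_eq_mul, mul_one]
  have hre : ∑ i, ∑ j, ((Pi.filter (fun p => lab i % p = lab j % p)).card : ℝ) * (P i j * Q j i).re = 0 := by
    have h1 := congrArg Complex.re hk
    rw [Complex.re_sum, Complex.zero_re] at h1
    rw [← h1]
    refine Finset.sum_congr rfl fun i _ => ?_
    rw [Complex.re_sum]
    refine Finset.sum_congr rfl fun j _ => ?_
    rw [← Complex.ofReal_natCast, Complex.re_ofReal_mul]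
  -- termwise estimate
  have hterm : ∀ i j, (Pi.card : ℝ) * (if lab i = lab j then ‖P i j‖ ^ 2 else 0) -
      ν * ((‖P i j‖ ^ 2 + ‖Q j i‖ ^ 2) / 2) ≤
      ((Pi.filter (fun p => lab i % p = lab j % p)).card : ℝ) * (P i j * Q j i).re := by
    intro i j
    by_cases h : lab i = lab j
    · have h1 : (Pi.filter (fun p => lab i % p = lab j % p)) = Pi :=
        Finset.filter_true_of_mem fun p _ => by rw [h]
      have h2 : (P i j * Q j i).re = ‖P i j‖ ^ 2 := by
        have h3 : Q j i = P j i := by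
          rw [hP, hQ]
          exact (hb j i h.symm).symm
        have h4 : P j i = star (P i j) := by
          conv_lhs => rw [← hPh]
          rfl
        rw [h3, h4, Complex.star_def, Complex.mul_conj, Complex.ofReal_re, Complex.normSq_eq_norm_sq]
      rw [if_pos h, h1, h2]
      have h5 : (0 : ℝ) ≤ ν * ((‖P i j‖ ^ 2 + ‖Q j i‖ ^ 2) / 2) := by positivity
      linarith
    · rw [if_neg h, mul_zero, zero_sub]
      have h1 : ((Pi.filter (fun p => lab i % p = lab j % p)).card : ℝ) ≤ ν := by exact_mod_cast hν i j h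
      have h2 : -((‖P i j‖ ^ 2 + ‖Q j i‖ ^ 2) / 2) ≤ (P i j * Q j i).re := by
        have h3 : |(P i j * Q j i).re| ≤ ‖P i j * Q j i‖ := Complex.abs_re_le_norm _
        rw [norm_mul] at h3
        have h4 := neg_abs_le (P i j * Q j i).re
        nlinarith [sq_nonneg (‖P i j‖ - ‖Q j i‖)]
      have h5 : (0 : ℝ) ≤ ((Pi.filter (fun p => lab i % p = lab j % p)).card : ℝ) := Nat.cast_nonneg _
      have h6 : (0 : ℝ) ≤ (‖P i j‖ ^ 2 + ‖Q j i‖ ^ 2) / 2 := by positivity
      have h7 := mul_le_mul_of_nonneg_left h2 h5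
      have h8 := mul_le_mul_of_nonneg_right h1 h6
      linarith
  have hsum : (Pi.card : ℝ) * ∑ i, ∑ j, (if lab i = lab j then ‖P i j‖ ^ 2 else 0) ≤ ν * a := by
    have h1 : ∑ i, ∑ j, ((Pi.card : ℝ) * (if lab i = lab j then ‖P i j‖ ^ 2 else 0) -
      ν * ((‖P i j‖ ^ 2 + ‖Q j i‖ ^ 2) / 2)) ≤ 0 := by
      refine le_trans ?_ hre.le
      exact Finset.sum_le_sum fun i _ => Finset.sum_le_sum fun j _ => hterm i j
    have h2 : ∑ i, ∑ j, ‖P i j‖ ^ 2 = a := hfP
    have h3 : ∑ i, ∑ j, ‖Q j i‖ ^ 2 = a := by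
      rw [Finset.sum_comm]
      exact hfQ
    have h4 : ∑ i : J, ∑ j : J, (ν : ℝ) * ((‖P i j‖ ^ 2 + ‖Q j i‖ ^ 2) / 2) = (ν : ℝ) * (a : ℝ) := by
      have h5 : ∀ i j : J, (ν : ℝ) * ((‖P i j‖ ^ 2 + ‖Q j i‖ ^ 2) / 2) = ν / 2 * ‖P i j‖ ^ 2 + ν / 2 * ‖Q j i‖ ^ 2 := by
        intro i j
        ring
      simp only [h5, Finset.sum_add_distrib, ← Finset.mul_sum]
      rw [h2, h3]
      ring
    simp only [Finset.sum_sub_distrib] at h1
    rw [h4] at h1
    simp only [← Finset.mul_sum] at h1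
    linarith
  -- the diagonal
  have hdiag : (a : ℝ) ^ 2 ≤ Fintype.card J * ∑ i, ∑ j, (if lab i = lab j then ‖P i j‖ ^ 2 else 0) := by
    have h1 : (a : ℝ) ≤ ∑ j, ‖P j j‖ := by
      have h2 : ‖(a : ℂ)‖ ≤ ∑ j, ‖P j j‖ := by
        rw [← htrP]
        exact norm_sum_le _ _
      simpa using h2
    have h2 : (∑ j, ‖P j j‖) ^ 2 ≤ (Fintype.card J : ℝ) * ∑ j, ‖P j j‖ ^ 2 := by
      have h3 := sq_sum_le_card_mul_sum_sq (s := (Finset.univ : Finset J)) (f := fun j => ‖P j j‖)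
      rw [Finset.card_univ] at h3
      exact h3
    have h3 : ∑ j, ‖P j j‖ ^ 2 ≤ ∑ i, ∑ j, (if lab i = lab j then ‖P i j‖ ^ 2 else 0) := by
      refine Finset.sum_le_sum fun i _ => ?_
      have h4 : ∀ j ∈ (Finset.univ : Finset J), 0 ≤ (if lab i = lab j then ‖P i j‖ ^ 2 else 0) := by
        intro j _
        split_ifs
        · positivity
        · exact le_rfl
      have h5 := Finset.single_le_sum h4 (Finset.mem_univ i)
      rwa [if_pos rfl] at h5
    have h4 : (a : ℝ) ^ 2 ≤ (∑ j, ‖P j j‖) ^ 2 := pow_le_pow_left₀ (Nat.cast_nonneg _) h1 2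
    exact h4.trans (h2.trans (mul_le_mul_of_nonneg_left h3 (Nat.cast_nonneg _)))
  have hfin : (a : ℝ) * Pi.card ≤ ν * Fintype.card J := by
    have ha' : (0 : ℝ) < a := by exact_mod_cast ha
    have h1 : (Pi.card : ℝ) * (a : ℝ) ^ 2 ≤ Pi.card * (Fintype.card J *
        ∑ i, ∑ j, (if lab i = lab j then ‖P i j‖ ^ 2 else 0)) := mul_le_mul_of_nonneg_left hdiag (Nat.cast_nonneg _)
    have h2 : (Fintype.card J : ℝ) * ((Pi.card : ℝ) * ∑ i, ∑ j, (if lab i = lab j then ‖P i j‖ ^ 2 else 0)) ≤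
        Fintype.card J * (ν * a) := mul_le_mul_of_nonneg_left hsum (Nat.cast_nonneg _)
    refine le_of_mul_le_mul_right (a := (a : ℝ)) ?_ ha'
    nlinarith
  exact_mod_cast hfin

end Pool.Agent.KNM
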