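import Pool.Agent.KNM.Defs

/-!
KNM-Hall.  No shrunk subspace => in every pair of bases there is a permutation in the common support.

PLAN.  Let `t i = {j | ∃ n, (U * C n * V) i j ≠ 0}` (Finset of `Fin a`, use `Finset.univ.filter` with classical
decidability).  By Hall's theorem (`Finset.all_card_le_biUnion_card_iff_exists_injective`) it is enough that
`J.card ≤ (J.biUnion t).card` for every `J : Finset (Fin a)`; an injective function `Fin a → Fin a` is a permutation
(`Equiv.ofBijective`, `Finite.injective_iff_bijective`).
Suppose `(J.biUnion t).card < J.card`.  Let `A` = range of the linear map `x ↦ V *ᵥ x` restricted to the vectors `x`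
supported outside `J.biUnion t`: `dim A = a - (J.biUnion t).card` (V is invertible, so `mulVecLin V` is injective).
For `x` supported outside `J.biUnion t` and `i ∈ J`: `(U *ᵥ (C n *ᵥ (V *ᵥ x))) i = ∑ j, (U * C n * V) i j * x j = 0`.
So all `C n` map `A` into `B = {y | ∀ i ∈ J, (U *ᵥ y) i = 0}`, `dim B = a - J.card` (U invertible).
`NoShrink` gives `a - (J.biUnion t).card ≤ a - J.card`, contradiction with `(J.biUnion t).card < J.card ≤ a`.
(To get the two dimensions only inequalities are needed: `dim A ≥ a - card biUnion` and `dim B ≤ a - card J`.)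
-/

namespace Pool.Agent.KNM

open Matrix Polynomial Finset

theorem exists_perm {a : ℕ} (C : ℕ → Matrix (Fin a) (Fin a) ℂ) (h : NoShrink C)
    (U V : Matrix (Fin a) (Fin a) ℂ) (hU : IsUnit U.det) (hV : IsUnit V.det) :
    ∃ σ : Equiv.Perm (Fin a), ∀ i, ∃ n, (U * C n * V) i (σ i) ≠ 0 := by
  classical
  have key : ∃ f : Fin a → Fin a, Function.Injective f ∧
      ∀ i, f i ∈ Finset.univ.filter (fun j => ∃ n, (U * C n * V) i j ≠ 0) := by
    rw [← Finset.all_card_le_biUnion_card_iff_exists_injective
      (fun i => Finset.univ.filter (fun j => ∃ n, (U * C n * V) i j ≠ 0))]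
    intro I
    by_contra hlt
    push Not at hlt
    set W := I.biUnion fun i => Finset.univ.filter (fun j => ∃ n, (U * C n * V) i j ≠ 0) with hW
    have hzero : ∀ n, ∀ i ∈ I, ∀ j, j ∉ W → (U * C n * V) i j = 0 := by
      intro n i hi j hj
      by_contra hne
      apply hj
      rw [hW, Finset.mem_biUnion]
      exact ⟨i, hi, Finset.mem_filter.2 ⟨Finset.mem_univ _, n, hne⟩⟩
    -- the space spanned by the columns of `V` outside `W`
    have hUU : IsUnit U := (Matrix.isUnit_iff_isUnit_det U).2 hU
    have hVU : IsUnit V := (Matrix.isUnit_iff_isUnit_det V).2 hV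
    have hlV : LinearIndependent ℂ V.col := Matrix.linearIndependent_cols_of_isUnit hVU
    have hlU : LinearIndependent ℂ (U⁻¹).col := by
      refine Matrix.linearIndependent_cols_of_isUnit ?_
      exact (Matrix.isUnit_nonsing_inv_iff).2 hUU
    let A : Submodule ℂ (Fin a → ℂ) :=
      Submodule.span ℂ (Set.range fun j : {j : Fin a // j ∉ W} => V.col j.1)
    let B : Submodule ℂ (Fin a → ℂ) :=
      Submodule.span ℂ (Set.range fun i : {i : Fin a // i ∉ I} => (U⁻¹).col i.1)
    have hA : Module.finrank ℂ A = a - W.card := by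
      have h1 := finrank_span_eq_card (R := ℂ)
        (b := fun j : {j : Fin a // j ∉ W} => V.col j.1)
        (hlV.comp _ Subtype.val_injective)
      rw [h1, Fintype.card_subtype_compl, Fintype.card_fin, Fintype.card_coe]
    have hB : Module.finrank ℂ B = a - I.card := by
      have h1 := finrank_span_eq_card (R := ℂ)
        (b := fun i : {i : Fin a // i ∉ I} => (U⁻¹).col i.1)
        (hlU.comp _ Subtype.val_injective)
      rw [h1, Fintype.card_subtype_compl, Fintype.card_fin, Fintype.card_coe]
    have hAB : (⨆ n, A.map (C n).mulVecLin : Submodule ℂ (Fin a → ℂ)) ≤ B := by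
      refine iSup_le fun n => ?_
      rw [Submodule.map_le_iff_le_comap, Submodule.span_le]
      rintro _ ⟨j, rfl⟩
      rw [SetLike.mem_coe, Submodule.mem_comap, Matrix.mulVecLin_apply]
      have h1 : C n *ᵥ V.col j.1 = ∑ i, (U * C n * V) i j.1 • (U⁻¹).col i := by
        ext k
        have h2 : C n * V = U⁻¹ * (U * C n * V) := by
          rw [Matrix.mul_assoc U, ← Matrix.mul_assoc U⁻¹, Matrix.nonsing_inv_mul U hU,
            Matrix.one_mul]
        have h3 : (C n *ᵥ V.col j.1) k = (C n * V) k j.1 := by
          rw [Matrix.mul_apply]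
          rfl
        rw [h3, h2, Matrix.mul_apply, Finset.sum_apply]
        refine Finset.sum_congr rfl fun i _ => ?_
        rw [Pi.smul_apply, smul_eq_mul, mul_comm]
        rfl
      rw [h1]
      refine Submodule.sum_mem _ fun i _ => ?_
      by_cases hi : i ∈ I
      · rw [hzero n i hi j.1 j.2, zero_smul]
        exact Submodule.zero_mem _
      · exact Submodule.smul_mem _ _ (Submodule.subset_span ⟨⟨i, hi⟩, rfl⟩)
    have h2 := (h A).trans (Submodule.finrank_mono hAB)
    rw [hA, hB] at h2
    have h3 : I.card ≤ a := by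
      have := Finset.card_le_univ I
      rwa [Fintype.card_fin] at this
    omega
  obtain ⟨f, hf, hf2⟩ := key
  refine ⟨Equiv.ofBijective f (Finite.injective_iff_bijective.1 hf), fun i => ?_⟩
  have := (Finset.mem_filter.1 (hf2 i)).2
  exact this

end Pool.Agent.KNM
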