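import Pool.Agent.KNM.Defs

/-!
KNM-MvRank.  For a kernel `G : A → B → ℂ` on arbitrary (possibly infinite) sets: all `(r+1)`-minors vanish iff
`G` has a factorisation of length `r`.

PLAN.  (←) `Matrix.of (G (s i) (t j)) = M * N` with `M : (r+1) × r`, `N : r × (r+1)`: rank `≤ r < r + 1`, so `det = 0`
(`Matrix.rank_mul_le_left`, or pad with zeros; or `Matrix.det_mul'`/Cauchy-Binet; simplest: there is a nonzero `v` with
`N *ᵥ v = 0` (more unknowns than equations, `Matrix.exists_mulVec_eq_zero_iff`, `LinearMap.exists_ne_zero...`)).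
(→) Take the largest `ρ ≤ r` for which there are `s : Fin ρ → A`, `t : Fin ρ → B` with `det (G (s i) (t j)) ≠ 0` (`ρ = 0` works:
the determinant of the empty matrix is 1).  Let `M = of (G (s i) (t j))`.  For all `x, y` the bordered
`(ρ+1)`-minor vanishes, so `G x y = ∑ i, (∑ j, G x (t j) * M⁻¹ j i) * G (s i) y`
(the vector `v = (-(M⁻¹ *ᵥ G (s ·) y), 1)`...: from `det (bordered) = det M * (G x y - row * M⁻¹ * column)`,
`Matrix.det_fromBlocks₁₁`, or `Fin.cons`/`Fin.snoc` reindexing `finSumFinEquiv`).  Pad with zeros from `ρ` to `r`.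
-/

namespace Pool.Agent.KNM

open Matrix Polynomial Finset

theorem mv_of_fac {A B : Type*} (G : A → B → ℂ) (r : ℕ)
    (h : ∃ (f : Fin r → A → ℂ) (g : Fin r → B → ℂ), ∀ x y, G x y = ∑ i, f i x * g i y) :
    MV G (r + 1) := by
  obtain ⟨f, g, hfg⟩ := h
  intro s t
  by_contra hdet
  have h1 : (Matrix.of fun i j => G (s i) (t j)) =
      (Matrix.of fun (i : Fin (r + 1)) (k : Fin r) => f k (s i)) *
        (Matrix.of fun (k : Fin r) (j : Fin (r + 1)) => g k (t j)) := by
    ext i j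
    rw [Matrix.mul_apply]
    simp only [Matrix.of_apply]
    exact hfg (s i) (t j)
  have h2 := Matrix.rank_of_det_ne_zero hdet
  have h3 : (Matrix.of fun i j => G (s i) (t j)).rank ≤ r := by
    rw [h1]
    exact (Matrix.rank_mul_le_left _ _).trans (Matrix.rank_le_width _)
  rw [h2, Fintype.card_fin] at h3
  omega

/-- the largest nonvanishing minor -/
private theorem mv_max {A B : Type*} (G : A → B → ℂ) (r : ℕ) (h : MV G (r + 1)) :
    ∃ ρ, ρ ≤ r ∧ ¬ MV G ρ ∧ MV G (ρ + 1) := by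
  by_contra hcon
  push Not at hcon
  have h1 : ∀ ρ, ρ ≤ r + 1 → ¬ MV G ρ := by
    intro ρ
    induction ρ with
    | zero =>
      intro _ h0
      have := h0 (fun i => i.elim0) (fun i => i.elim0)
      rw [Matrix.det_isEmpty] at this
      exact one_ne_zero this
    | succ ρ ih =>
      intro hρ
      exact hcon ρ (by omega) (ih (by omega))
  exact h1 (r + 1) le_rfl h

/-- the bordered minor -/
private theorem mv_border {A B : Type*} (G : A → B → ℂ) (ρ : ℕ) (h : MV G (ρ + 1))
    (s : Fin ρ → A) (t : Fin ρ → B) (hdet : (Matrix.of fun i j => G (s i) (t j)).det ≠ 0)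
    (x : A) (y : B) :
    G x y = ∑ i, (∑ j, G x (t j) * (Matrix.of fun i j => G (s i) (t j))⁻¹ j i) * G (s i) y := by
  set M : Matrix (Fin ρ) (Fin ρ) ℂ := Matrix.of fun i j => G (s i) (t j) with hM
  have hU : IsUnit M.det := isUnit_iff_ne_zero.2 hdet
  let : Invertible M := Matrix.invertibleOfIsUnitDet M hU
  set W : Matrix (Fin ρ ⊕ Fin 1) (Fin ρ ⊕ Fin 1) ℂ := Matrix.of fun i j =>
    G (Sum.elim s (fun _ => x) i) (Sum.elim t (fun _ => y) j) with hW
  have h1 : W.det = 0 := by
    rw [← Matrix.det_submatrix_equiv_self finSumFinEquiv.symm W]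
    exact h (fun i => Sum.elim s (fun _ => x) (finSumFinEquiv.symm i))
      (fun j => Sum.elim t (fun _ => y) (finSumFinEquiv.symm j))
  have h2 : W = Matrix.fromBlocks M (Matrix.of fun i (_ : Fin 1) => G (s i) y)
      (Matrix.of fun (_ : Fin 1) j => G x (t j)) (Matrix.of fun (_ : Fin 1) (_ : Fin 1) => G x y) := by
    ext i j
    rcases i with i | i <;> rcases j with j | j <;> rfl
  rw [h2, Matrix.det_fromBlocks₁₁] at h1
  have h3 := (mul_eq_zero.1 h1).resolve_left hdet
  rw [Matrix.det_fin_one] at h3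
  have h4 := sub_eq_zero.1 h3
  rw [Matrix.of_apply] at h4
  rw [h4, Matrix.mul_apply]
  refine Finset.sum_congr rfl fun i _ => ?_
  rw [Matrix.mul_apply, Matrix.invOf_eq_nonsing_inv]
  rfl

theorem fac_of_mv {A B : Type*} (G : A → B → ℂ) (r : ℕ) (h : MV G (r + 1)) :
    ∃ (f : Fin r → A → ℂ) (g : Fin r → B → ℂ), ∀ x y, G x y = ∑ i, f i x * g i y := by
  obtain ⟨ρ, hρ, h1, h2⟩ := mv_max G r h
  unfold MV at h1
  push Not at h1
  obtain ⟨s, t, hdet⟩ := h1
  obtain ⟨k, rfl⟩ := Nat.exists_eq_add_of_le hρ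
  refine ⟨Fin.append (fun i x => ∑ j, G x (t j) * (Matrix.of fun i j => G (s i) (t j))⁻¹ j i)
    (fun _ _ => 0), Fin.append (fun i y => G (s i) y) (fun _ _ => 0), fun x y => ?_⟩
  rw [Fin.sum_univ_add]
  simp only [Fin.append_left, Fin.append_right, mul_zero, Finset.sum_const_zero, add_zero]
  exact mv_border G ρ h2 s t hdet x y

end Pool.Agent.KNM
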