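import Pool.Agent.KNM.Defs

/-!
KNM-RankFac.  Rank factorisation of a complex matrix.

PLAN.  `C.rank = finrank (range C.mulVecLin)`; take a basis of the range (`Module.finBasis`, reindexed to `Fin C.rank`),
`L` = the matrix whose columns are the basis vectors, `R` = the coordinates of the columns of `C`.
(Or look for an existing lemma, e.g. via `LinearMap.range` and `LinearMap.toMatrix`.)
-/

namespace Pool.Agent.KNM

open Matrix Polynomial Finset

theorem rank_fac {a b : ℕ} (C : Matrix (Fin a) (Fin b) ℂ) :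
    ∃ (L : Matrix (Fin a) (Fin C.rank) ℂ) (R : Matrix (Fin C.rank) (Fin b) ℂ), C = L * R := by
  have hr : Module.finrank ℂ (LinearMap.range C.mulVecLin) = C.rank := rfl
  let bs : Module.Basis (Fin C.rank) ℂ (LinearMap.range C.mulVecLin) := Module.finBasisOfFinrankEq ℂ _ hr
  let v : Fin b → LinearMap.range C.mulVecLin := fun j =>
    ⟨C.mulVecLin (Pi.single j 1), LinearMap.mem_range_self _ _⟩
  refine ⟨Matrix.of fun i k => (bs k : Fin a → ℂ) i, Matrix.of fun k j => bs.repr (v j) k, ?_⟩
  ext i j
  have h1 : ((∑ k, bs.repr (v j) k • bs k : LinearMap.range C.mulVecLin) : Fin a → ℂ) = C.mulVecLin (Pi.single j 1) := by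
    rw [bs.sum_repr (v j)]
  have h2 := congrFun h1 i
  rw [Submodule.coe_sum, Finset.sum_apply] at h2
  have h3 : C.mulVecLin (Pi.single j 1) i = C i j := by
    rw [Matrix.mulVecLin_apply, Matrix.mulVec_single_one]
    rfl
  rw [← h3, ← h2, Matrix.mul_apply]
  refine Finset.sum_congr rfl fun k _ => ?_
  rw [Matrix.of_apply, Matrix.of_apply, Submodule.coe_smul, Pi.smul_apply, smul_eq_mul, mul_comm]

end Pool.Agent.KNM
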