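import Pool.Agent.KNM.Defs

/-!
KNM-Shrink.  A shrunk subspace in coordinates.
-/

namespace Pool.Agent.KNM

open Matrix Polynomial Finset

theorem adapt {a : ℕ} (A : Submodule ℂ (Fin a → ℂ)) :
    ∃ Q : Matrix (Fin a) (Fin a) ℂ, IsUnit Q.det ∧
      (∀ j : Fin a, (j : ℕ) < Module.finrank ℂ A → (fun i => Q i j) ∈ A) ∧
      ∀ y ∈ A, ∀ i : Fin a, Module.finrank ℂ A ≤ (i : ℕ) → (Q⁻¹ *ᵥ y) i = 0 := by
  obtain ⟨B, hB⟩ := Submodule.exists_isCompl A
  have hab : Module.finrank ℂ A + Module.finrank ℂ B = a := by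
    rw [Submodule.finrank_add_eq_of_isCompl hB, Module.finrank_fin_fun]
  obtain ⟨w, hw1, hw2⟩ : ∃ w : Module.Basis (Fin a) ℂ (Fin a → ℂ),
      (∀ j : Fin a, (j : ℕ) < Module.finrank ℂ A → w j ∈ A) ∧
      ∀ y ∈ A, ∀ i : Fin a, Module.finrank ℂ A ≤ (i : ℕ) → w.repr y i = 0 := by
    let e : (A × B) ≃ₗ[ℂ] (Fin a → ℂ) := Submodule.prodEquivOfIsCompl A B hB
    let v : Module.Basis (Fin (Module.finrank ℂ A) ⊕ Fin (Module.finrank ℂ B)) ℂ (Fin a → ℂ) :=
      ((Module.finBasis ℂ A).prod (Module.finBasis ℂ B)).map e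
    let σ : Fin (Module.finrank ℂ A) ⊕ Fin (Module.finrank ℂ B) ≃ Fin a := finSumFinEquiv.trans (finCongr hab)
    refine ⟨v.reindex σ, fun j hj => ?_, fun y hy i hi => ?_⟩
    · have h1 : σ.symm j = Sum.inl ⟨j, hj⟩ := by
        rw [Equiv.symm_apply_eq]
        apply Fin.ext
        rfl
      rw [Module.Basis.reindex_apply, h1]
      have h2 : v (Sum.inl ⟨j, hj⟩) = e (((Module.finBasis ℂ A).prod (Module.finBasis ℂ B)) (Sum.inl ⟨j, hj⟩)) := rfl
      have h3 : e (((Module.finBasis ℂ A).prod (Module.finBasis ℂ B)) (Sum.inl ⟨j, hj⟩)) =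
          ((Module.finBasis ℂ A ⟨j, hj⟩ : A) : Fin a → ℂ) := by
        simp [e]
      rw [h2, h3]
      exact Subtype.mem _
    · have hlt : (i : ℕ) - Module.finrank ℂ A < Module.finrank ℂ B := by
        have := i.2
        omega
      have h1 : σ.symm i = Sum.inr ⟨i - Module.finrank ℂ A, hlt⟩ := by
        rw [Equiv.symm_apply_eq]
        apply Fin.ext
        have h2 : ((σ (Sum.inr ⟨i - Module.finrank ℂ A, hlt⟩) : Fin a) : ℕ) =
            Module.finrank ℂ A + (i - Module.finrank ℂ A) := rfl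
        rw [h2]
        omega
      have h4 : e.symm y = (⟨y, hy⟩, 0) := Submodule.prodEquivOfIsCompl_symm_apply_left A B hB ⟨y, hy⟩
      rw [Module.Basis.repr_reindex_apply, h1]
      have h3 : v.repr y (Sum.inr ⟨i - Module.finrank ℂ A, hlt⟩) =
          ((Module.finBasis ℂ A).prod (Module.finBasis ℂ B)).repr (e.symm y)
            (Sum.inr ⟨i - Module.finrank ℂ A, hlt⟩) := rfl
      rw [h3, h4, Module.Basis.prod_repr_inr, map_zero]
      rfl
  have hQ : IsUnit (Matrix.of fun i j => w j i : Matrix (Fin a) (Fin a) ℂ).det := by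
    rw [← Matrix.isUnit_iff_isUnit_det, ← Matrix.linearIndependent_cols_iff_isUnit]
    exact w.linearIndependent
  refine ⟨Matrix.of fun i j => w j i, hQ, fun j hj => hw1 j hj, fun y hy i hi => ?_⟩
  have h1 : (Matrix.of fun i j => w j i : Matrix (Fin a) (Fin a) ℂ) *ᵥ (fun j => w.repr y j) = y := by
    conv_rhs => rw [← w.sum_repr y]
    funext k
    rw [Finset.sum_apply]
    simp only [Matrix.mulVec, dotProduct, Matrix.of_apply, Pi.smul_apply, smul_eq_mul]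
    exact Finset.sum_congr rfl fun j _ => mul_comm _ _
  rw [← h1, Matrix.mulVec_mulVec, Matrix.nonsing_inv_mul _ hQ, Matrix.one_mulVec]
  exact hw2 y hy i hi

theorem exists_basis {a : ℕ} (C : ℕ → Matrix (Fin a) (Fin a) ℂ) (h : ¬ NoShrink C) :
    ∃ (P Q : Matrix (Fin a) (Fin a) ℂ) (α β : ℕ), IsUnit P.det ∧ IsUnit Q.det ∧ β < α ∧ α ≤ a ∧
      ∀ (n : ℕ) (i j : Fin a), β ≤ (i : ℕ) → (j : ℕ) < α → (P * C n * Q) i j = 0 := by
  unfold NoShrink at h
  push Not at h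
  obtain ⟨A, hA⟩ := h
  obtain ⟨Q, hQ1, hQ2, -⟩ := adapt A
  obtain ⟨Q', hQ1', -, hQ3'⟩ := adapt (⨆ n, A.map (C n).mulVecLin : Submodule ℂ (Fin a → ℂ))
  refine ⟨Q'⁻¹, Q, Module.finrank ℂ A,
    Module.finrank ℂ ((⨆ n, A.map (C n).mulVecLin : Submodule ℂ (Fin a → ℂ))),
    Matrix.isUnit_nonsing_inv_det _ hQ1', hQ1, hA, ?_, ?_⟩
  · have h1 := Submodule.finrank_le A
    rwa [Module.finrank_fin_fun] at h1
  · intro n i j hi hj
    have h1 : (Q'⁻¹ * C n * Q) i j = (Q'⁻¹ *ᵥ (C n *ᵥ fun k => Q k j)) i := by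
      rw [Matrix.mulVec_mulVec]
      rfl
    rw [h1]
    refine hQ3' _ ?_ i hi
    exact (le_iSup (fun n => A.map (C n).mulVecLin) n) (Submodule.mem_map_of_mem (hQ2 j hj))

end Pool.Agent.KNM
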