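import Pool.Agent.KNM.Shrink

/-!
KNM-Step.  One step of the semistable reduction.

PLAN.  `low_ord`: every entry of `L(x0 t) R(y0 t)` is divisible by `t ^ k` (its coefficient of `t ^ w` is
`∑_{u+v=w} x0^u y0^v (cf L u * cf R v) i j`), so every term of the Leibniz formula is divisible by `t ^ (a k)`
(`Finset.prod_dvd_prod_of_dvd`), `Polynomial.X_pow_dvd_iff` / `natTrailingDegree` bounds.
`step`: take `P, Q, α, β` from `exists_basis` for `C = lt k L R`.  Put
`L' i k = (if i < β then X else 1) * ∑ i', C (P i i') * L i' k`,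
`R' k j = (∑ j', R k j' * C (Q j' j)) * (if j < α then 1 else X)`.
* `Low (k+1)`: the entry `(i,j)` of `cf L' u * cf R' v`, `u + v ≤ k`, is the entry `(i,j)` of
  `P * (cf L (u - [i<β]) * cf R (v - [α≤j])) * Q` (and zero if `u = 0`, `i < β` or `v = 0`, `α ≤ j`).  If `i < β` or `α ≤ j` the
  degree is `< k` and `Low k L R` applies; otherwise it is `< k` or it is `(P * lt k L R v * Q) i j = 0`, `u = k - v`.
* `Kil`: the sum for `(i,j)` is a multiple of `∑ i' j', P i i' Q j' j (the sum of L R for (i',j')) = 0`.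
* `dt x0 y0 L' R' = C (x0^β' * y0^(a-α) * det P * det Q) * X^(β' + (a - α)) * dt x0 y0 L R`, `β' = min β a = β`:
  `L'(x0 t) R'(y0 t) = diagonal (..) * P.map C * (L(x0 t) R(y0 t)) * Q.map C * diagonal (..)`; so it is not zero and
  `natTrailingDegree` increases by `β + (a - α) < a` (`natTrailingDegree_mul_X_pow`, `natTrailingDegree_mul`).
-/

namespace Pool.Agent.KNM

open Matrix Polynomial Finset

private theorem Step_coeff {a m : ℕ} (L : Matrix (Fin a) (Fin m) ℂ[X])
    (R : Matrix (Fin m) (Fin a) ℂ[X]) (x0 y0 : ℂ) (w : ℕ) (i j : Fin a) :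
    ((L.map (fun f => f.comp (Polynomial.C x0 * X)) *
      R.map (fun f => f.comp (Polynomial.C y0 * X))) i j).coeff w =
      ∑ s ∈ antidiagonal w, x0 ^ s.1 * y0 ^ s.2 * (cf L s.1 * cf R s.2) i j := by
  simp only [Matrix.mul_apply, Matrix.map_apply, Polynomial.finsetSum_coeff, Polynomial.coeff_mul,
    Polynomial.comp_C_mul_X_coeff, cf, Finset.mul_sum]
  rw [Finset.sum_comm]
  refine Finset.sum_congr rfl fun s _ => Finset.sum_congr rfl fun l _ => ?_
  ring

private theorem Step_cfL {a m : ℕ} (P : Matrix (Fin a) (Fin a) ℂ) (L : Matrix (Fin a) (Fin m) ℂ[X])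
    (β u : ℕ) (i : Fin a) (l : Fin m) :
    cf (Matrix.diagonal (fun i : Fin a => if (i : ℕ) < β then (X : ℂ[X]) else 1) *
      (P.map Polynomial.C * L)) u i l =
      if (i : ℕ) < β then (if u = 0 then 0 else (P * cf L (u - 1)) i l) else (P * cf L u) i l := by
  have h1 : ∀ u, ((P.map Polynomial.C * L) i l).coeff u = (P * cf L u) i l := by
    intro u
    simp [Matrix.mul_apply, cf]
  simp only [cf, Matrix.map_apply, Matrix.diagonal_mul]
  split_ifs with h2 h3
  · rw [h3, Polynomial.coeff_X_mul_zero]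
  · obtain ⟨u', rfl⟩ := Nat.exists_eq_succ_of_ne_zero h3
    rw [Nat.succ_eq_add_one, Polynomial.coeff_X_mul, h1]
    rfl
  · rw [one_mul, h1]
    rfl

private theorem Step_cfR {a m : ℕ} (Q : Matrix (Fin a) (Fin a) ℂ) (R : Matrix (Fin m) (Fin a) ℂ[X])
    (α v : ℕ) (l : Fin m) (j : Fin a) :
    cf ((R * Q.map Polynomial.C) *
      Matrix.diagonal (fun j : Fin a => if (j : ℕ) < α then (1 : ℂ[X]) else X)) v l j =
      if (j : ℕ) < α then (cf R v * Q) l j else (if v = 0 then 0 else (cf R (v - 1) * Q) l j) := by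
  have h1 : ∀ v, ((R * Q.map Polynomial.C) l j).coeff v = (cf R v * Q) l j := by
    intro v
    simp [Matrix.mul_apply, cf]
  simp only [cf, Matrix.map_apply, Matrix.mul_diagonal]
  split_ifs with h2 h3
  · rw [mul_one, h1]
    rfl
  · rw [h3, Polynomial.coeff_mul_X_zero]
  · obtain ⟨v', rfl⟩ := Nat.exists_eq_succ_of_ne_zero h3
    rw [Nat.succ_eq_add_one, Polynomial.coeff_mul_X, h1]
    rfl

private theorem Step_low {a m : ℕ} (k : ℕ) (L : Matrix (Fin a) (Fin m) ℂ[X])
    (R : Matrix (Fin m) (Fin a) ℂ[X]) (hLow : Low k L R) (P Q : Matrix (Fin a) (Fin a) ℂ)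
    (α β : ℕ) (h : ∀ (n : ℕ) (i j : Fin a), β ≤ (i : ℕ) → (j : ℕ) < α → (P * lt k L R n * Q) i j = 0) :
    Low (k + 1) (Matrix.diagonal (fun i : Fin a => if (i : ℕ) < β then (X : ℂ[X]) else 1) *
      (P.map Polynomial.C * L)) ((R * Q.map Polynomial.C) *
      Matrix.diagonal (fun j : Fin a => if (j : ℕ) < α then (1 : ℂ[X]) else X)) := by
  intro u v huv
  have hz : ∀ u v, u + v < k → ∀ i j, ∑ l, (P * cf L u) i l * (cf R v * Q) l j = 0 := by
    intro u v huv i j
    have h1 : ((P * cf L u) * (cf R v * Q)) i j = 0 := by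
      rw [show (P * cf L u) * (cf R v * Q) = P * (cf L u * cf R v) * Q by
        simp only [Matrix.mul_assoc], hLow u v huv]
      simp
    rwa [Matrix.mul_apply] at h1
  ext i j
  rw [Matrix.mul_apply]
  simp only [Step_cfL, Step_cfR, Matrix.zero_apply]
  by_cases h1 : (i : ℕ) < β
  · by_cases hu : u = 0
    · simp [h1, hu]
    · by_cases h2 : (j : ℕ) < α
      · simp only [h1, h2, hu, if_true, if_false]
        exact hz _ _ (by omega) i j
      · by_cases hv : v = 0
        · simp [h2, hv]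
        · simp only [h1, h2, hu, hv, if_true, if_false]
          exact hz _ _ (by omega) i j
  · by_cases h2 : (j : ℕ) < α
    · simp only [h1, h2, if_true, if_false]
      rcases Nat.lt_or_ge (u + v) k with h3 | h3
      · exact hz _ _ h3 i j
      · have h4 := h v i j (not_lt.1 h1) h2
        have h5 : v ≤ k := by omega
        have h6 : k - v = u := by omega
        rw [lt, if_pos h5, h6, show P * (cf L u * cf R v) * Q = (P * cf L u) * (cf R v * Q) by
          simp only [Matrix.mul_assoc], Matrix.mul_apply] at h4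
        exact h4
    · by_cases hv : v = 0
      · simp [h2, hv]
      · simp only [h1, h2, hv, if_false]
        exact hz _ _ (by omega) i j

private theorem Step_sandwich {a m : ℕ} (L : Matrix (Fin a) (Fin m) ℂ[X])
    (R : Matrix (Fin m) (Fin a) ℂ[X]) (P Q : Matrix (Fin a) (Fin a) ℂ) (α β : ℕ) (g g' : ℂ[X]) :
    (Matrix.diagonal (fun i : Fin a => if (i : ℕ) < β then (X : ℂ[X]) else 1) *
      (P.map Polynomial.C * L)).map (fun f => f.comp g) *
    ((R * Q.map Polynomial.C) *
      Matrix.diagonal (fun j : Fin a => if (j : ℕ) < α then (1 : ℂ[X]) else X)).map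
        (fun f => f.comp g') =
    Matrix.diagonal (fun i : Fin a => if (i : ℕ) < β then g else 1) * (P.map Polynomial.C *
      (L.map (fun f => f.comp g) * R.map (fun f => f.comp g')) * Q.map Polynomial.C) *
      Matrix.diagonal (fun j : Fin a => if (j : ℕ) < α then 1 else g') := by
  have e1 : ∀ g : ℂ[X], (fun f : ℂ[X] => f.comp g) = Polynomial.compRingHom g := by
    intro g
    funext f
    simp
  have e2 : ∀ (g : ℂ[X]) (P : Matrix (Fin a) (Fin a) ℂ),
      (P.map Polynomial.C).map (Polynomial.compRingHom g) = P.map Polynomial.C := by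
    intro g P
    ext i j
    simp
  have e3 : (Matrix.diagonal (fun i : Fin a => if (i : ℕ) < β then (X : ℂ[X]) else 1)).map
      (Polynomial.compRingHom g) = Matrix.diagonal (fun i : Fin a => if (i : ℕ) < β then g else 1) := by
    rw [Matrix.diagonal_map (map_zero _)]
    congr 1
    funext i
    show (Polynomial.compRingHom g) (if (i : ℕ) < β then (X : ℂ[X]) else 1) = _
    split_ifs <;> simp
  have e4 : (Matrix.diagonal (fun j : Fin a => if (j : ℕ) < α then (1 : ℂ[X]) else X)).map
      (Polynomial.compRingHom g') = Matrix.diagonal (fun j : Fin a => if (j : ℕ) < α then 1 else g') := by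
    rw [Matrix.diagonal_map (map_zero _)]
    congr 1
    funext i
    show (Polynomial.compRingHom g') (if (i : ℕ) < α then (1 : ℂ[X]) else X) = _
    split_ifs <;> simp
  rw [e1, e1]
  simp only [Matrix.map_mul, e2, e3, e4, Matrix.mul_assoc]

theorem low_ord {a m : ℕ} (k : ℕ) (L : Matrix (Fin a) (Fin m) ℂ[X])
    (R : Matrix (Fin m) (Fin a) ℂ[X]) (x0 y0 : ℂ) (hLow : Low k L R) (hdt : dt x0 y0 L R ≠ 0) :
    a * k ≤ (dt x0 y0 L R).natTrailingDegree := by
  have h1 : ∀ i j : Fin a, X ^ k ∣ (L.map (fun f => f.comp (Polynomial.C x0 * X)) *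
      R.map (fun f => f.comp (Polynomial.C y0 * X))) i j := by
    intro i j
    rw [Polynomial.X_pow_dvd_iff]
    intro d hd
    rw [Step_coeff]
    refine Finset.sum_eq_zero fun s hs => ?_
    have hs' : s.1 + s.2 = d := Finset.HasAntidiagonal.mem_antidiagonal.1 hs
    rw [hLow s.1 s.2 (by omega)]
    simp
  choose M' hM' using h1
  have h2 : L.map (fun f => f.comp (Polynomial.C x0 * X)) *
      R.map (fun f => f.comp (Polynomial.C y0 * X)) = (X ^ k : ℂ[X]) • Matrix.of M' := by
    ext1 i j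
    rw [hM']
    rfl
  have h3 : dt x0 y0 L R = X ^ (a * k) * (Matrix.of M').det := by
    unfold dt
    rw [h2, Matrix.det_smul, Fintype.card_fin, ← pow_mul, mul_comm k a]
  refine Polynomial.le_natTrailingDegree hdt fun d hd => ?_
  exact (Polynomial.X_pow_dvd_iff.1 (h3 ▸ dvd_mul_right _ _)) d hd

theorem step {a m : ℕ} (k D : ℕ) (L : Matrix (Fin a) (Fin m) ℂ[X])
    (R : Matrix (Fin m) (Fin a) ℂ[X]) (q : ℂ[X]) (x0 y0 : ℂ) (hx : x0 ≠ 0) (hy : y0 ≠ 0)
    (hLow : Low k L R) (hKil : Kil q L R) (hdt : dt x0 y0 L R ≠ 0)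
    (hD : ∀ i j, (R i j).natDegree ≤ D) (h : ¬ NoShrink (lt k L R)) :
    ∃ (L' : Matrix (Fin a) (Fin m) ℂ[X]) (R' : Matrix (Fin m) (Fin a) ℂ[X]),
      Low (k + 1) L' R' ∧ Kil q L' R' ∧ dt x0 y0 L' R' ≠ 0 ∧
      (∀ i j, (R' i j).natDegree ≤ D + 1) ∧
      (dt x0 y0 L' R').natTrailingDegree < (dt x0 y0 L R).natTrailingDegree + a := by
  obtain ⟨P, Q, α, β, hP, hQ, hβα, hαa, hPQ⟩ := exists_basis _ h
  set L' : Matrix (Fin a) (Fin m) ℂ[X] :=
    Matrix.diagonal (fun i : Fin a => if (i : ℕ) < β then (X : ℂ[X]) else 1) *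
      (P.map Polynomial.C * L) with hL'
  set R' : Matrix (Fin m) (Fin a) ℂ[X] := (R * Q.map Polynomial.C) *
      Matrix.diagonal (fun j : Fin a => if (j : ℕ) < α then (1 : ℂ[X]) else X) with hR'
  have hdet : dt x0 y0 L' R' = Polynomial.C (x0 ^ β * y0 ^ (a - α) * P.det * Q.det) *
      X ^ (β + (a - α)) * dt x0 y0 L R := by
    have h1 : ∏ i : Fin a, (if (i : ℕ) < β then (Polynomial.C x0 * X : ℂ[X]) else 1) =
        (Polynomial.C x0 * X) ^ β := by
      rw [Finset.prod_ite, Finset.prod_const, Finset.prod_const_one, mul_one]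
      congr 1
      rw [Fin.card_filter_val_lt]
      omega
    have h2 : ∏ j : Fin a, (if (j : ℕ) < α then (1 : ℂ[X]) else Polynomial.C y0 * X) =
        (Polynomial.C y0 * X) ^ (a - α) := by
      rw [Finset.prod_ite, Finset.prod_const_one, one_mul, Finset.prod_const]
      congr 1
      have h3 := Finset.card_filter_add_card_filter_not (s := (Finset.univ : Finset (Fin a)))
        (p := fun j : Fin a => (j : ℕ) < α)
      rw [Fin.card_filter_val_lt, Finset.card_univ, Fintype.card_fin] at h3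
      omega
    unfold dt
    rw [hL', hR', Step_sandwich, Matrix.det_mul, Matrix.det_mul, Matrix.det_mul, Matrix.det_mul,
      Matrix.det_diagonal, Matrix.det_diagonal, h1, h2]
    have h4 : ∀ S : Matrix (Fin a) (Fin a) ℂ, (S.map Polynomial.C).det = Polynomial.C S.det := by
      intro S
      rw [← RingHom.mapMatrix_apply, ← RingHom.map_det]
    rw [h4, h4]
    simp only [map_mul, map_pow]
    ring
  have hc : x0 ^ β * y0 ^ (a - α) * P.det * Q.det ≠ 0 :=
    mul_ne_zero (mul_ne_zero (mul_ne_zero (pow_ne_zero _ hx) (pow_ne_zero _ hy)) hP.ne_zero) hQ.ne_zero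
  have hc' : Polynomial.C (x0 ^ β * y0 ^ (a - α) * P.det * Q.det) ≠ (0 : ℂ[X]) := by
    rwa [Ne, Polynomial.C_eq_zero]
  have hX : (X : ℂ[X]) ^ (β + (a - α)) ≠ 0 := pow_ne_zero _ Polynomial.X_ne_zero
  refine ⟨L', R', Step_low k L R hLow P Q α β hPQ, ?_, ?_, ?_, ?_⟩
  · have h1 : L.map (fun f => f.comp q) * R.map (fun f => f.comp (X * q)) = 0 := by
      ext1 i j
      rw [Matrix.mul_apply]
      exact hKil i j
    have h2 := Step_sandwich L R P Q α β q (X * q)
    rw [h1] at h2
    simp only [Matrix.mul_zero, Matrix.zero_mul] at h2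
    intro i j
    have h3 := congrFun (congrFun h2 i) j
    rw [Matrix.mul_apply] at h3
    exact h3
  · rw [hdet]
    exact mul_ne_zero (mul_ne_zero hc' hX) hdt
  · intro i j
    have h1 : R' i j = (∑ r, R i r * Polynomial.C (Q r j)) * (if (j : ℕ) < α then (1 : ℂ[X]) else X) := by
      rw [hR', Matrix.mul_diagonal, Matrix.mul_apply]
      rfl
    rw [h1]
    refine Polynomial.natDegree_mul_le.trans (Nat.add_le_add ?_ ?_)
    · refine Polynomial.natDegree_sum_le_of_forall_le _ _ fun r _ => ?_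
      exact (Polynomial.natDegree_mul_C_le _ _).trans (hD i r)
    · split_ifs
      · simp
      · exact Polynomial.natDegree_X_le
  · rw [hdet, Polynomial.natTrailingDegree_mul (mul_ne_zero hc' hX) hdt,
      Polynomial.natTrailingDegree_mul hc' hX, Polynomial.natTrailingDegree_C,
      Polynomial.natTrailingDegree_X_pow]
    omega

end Pool.Agent.KNM
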