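import Pool.Agent.KNM.Cap
import Pool.Agent.KNM.Crit
import Pool.Agent.KNM.HS
import Pool.Agent.KNM.RankFac

/-!
KNM-Tuple.  The tuple theorem: `a |Pi| ≤ ν ∑ rank C_n`.

The matrices `C n` are factored through `J = Σ n : Fin N, Fin (C n).rank`; the lower bound `cap_pos`, the balanced position
`critical` and the inequality `hs` give the theorem.
-/

namespace Pool.Agent.KNM

open Matrix Polynomial Finset

private theorem tuple_mod (N i j p : ℕ) (hi : i < N) (hj : j < N) (hij : i ≠ j)
    (hp : i % p = j % p) : p ∣ max i j - min i j ∧ 0 < max i j - min i j ∧ max i j - min i j < N := by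
  rcases le_total i j with h | h
  · rw [max_eq_right h, min_eq_left h]
    exact ⟨(Nat.modEq_iff_dvd' h).1 hp, by omega, by omega⟩
  · rw [max_eq_left h, min_eq_right h]
    exact ⟨(Nat.modEq_iff_dvd' h).1 hp.symm, by omega, by omega⟩

theorem tuple {a : ℕ} (ha : 0 < a) (N : ℕ) (C : ℕ → Matrix (Fin a) (Fin a) ℂ)
    (hN : ∀ n, N ≤ n → C n = 0) (h : NoShrink C) (Pi : Finset ℕ) (ν : ℕ)
    (hfold : ∀ p ∈ Pi, ∀ c : ℕ, ∑ n ∈ (range N).filter (fun n => n % p = c), C n = 0)
    (hν : ∀ k, 0 < k → k < N → (Pi.filter (fun p => p ∣ k)).card ≤ ν) :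
    a * Pi.card ≤ ν * ∑ n ∈ range N, (C n).rank := by
  choose Lf Rf hLR using fun n : Fin N => rank_fac (C n)
  let J : Type := Σ n : Fin N, Fin (C n).rank
  let lab : J → ℕ := fun j => (j.1 : ℕ)
  let L0 : Matrix (Fin a) J ℂ := Matrix.of fun i j => Lf j.1 i j.2
  let R0 : Matrix J (Fin a) ℂ := Matrix.of fun j i => Rf j.1 j.2 i
  have key : ∀ φ : ℕ → ℂ, L0 * dg lab φ * R0 = ∑ n ∈ range N, φ n • C n := by
    intro φ
    rw [Finset.sum_range]
    ext i k
    rw [mul_apply, Matrix.sum_apply, Fintype.sum_sigma]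
    refine sum_congr rfl fun n _ => ?_
    have h1 : C n i k = ∑ l, Lf n i l * Rf n l k := by
      conv_lhs => rw [hLR n]
      rw [mul_apply]
    rw [Matrix.smul_apply, smul_eq_mul, h1, mul_sum]
    refine sum_congr rfl fun l _ => ?_
    rw [dg, mul_diagonal]
    show Lf n i l * φ n * Rf n l k = φ n * (Lf n i l * Rf n l k)
    ring
  have htup : ∀ n ∈ range N, tup lab L0 R0 n = C n := by
    intro n hn
    unfold tup
    rw [key, sum_eq_single n]
    · rw [if_pos rfl, one_smul]
    · intro b _ hb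
      rw [if_neg hb, zero_smul]
    · intro h'; exact absurd hn h'
  obtain ⟨c0, hc0, hcap⟩ := cap_pos ha N C hN h
  have hcap' : ∀ S T : Matrix (Fin a) (Fin a) ℂ, S.det = 1 → T.det = 1 →
      c0 ≤ ∑ n ∈ range N, frob (S * tup lab L0 R0 n * T) := by
    intro S T hS hT
    refine (hcap S T hS hT).trans (le_of_eq (sum_congr rfl fun n hn => ?_))
    rw [htup n hn]
  obtain ⟨L, R, h1, h2, h3, h4⟩ := critical ha lab L0 R0 c0 hc0 N hcap'
  have hf : ∀ p ∈ Pi, ∀ c : ℕ, L * dg lab (fun n => if n % p = c then 1 else 0) * R = 0 := by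
    intro p hp c
    refine h1 _ ?_
    rw [key, ← hfold p hp c, sum_filter]
    refine sum_congr rfl fun n _ => ?_
    split_ifs
    · rw [one_smul]
    · rw [zero_smul]
  have hn : ∀ i j : J, lab i ≠ lab j →
      (Pi.filter (fun p => lab i % p = lab j % p)).card ≤ ν := by
    intro i j hij
    rcases (Pi.filter (fun p => lab i % p = lab j % p)).eq_empty_or_nonempty with he | ⟨p, hp⟩
    · rw [he]; exact Nat.zero_le _
    · have h5 := tuple_mod N (lab i) (lab j) p i.1.2 j.1.2 hij (mem_filter.1 hp).2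
      refine le_trans (card_le_card fun p' hp' => ?_) (hν _ h5.2.1 h5.2.2)
      rw [mem_filter] at hp' ⊢
      exact ⟨hp'.1, (tuple_mod N (lab i) (lab j) p' i.1.2 j.1.2 hij hp'.2).1⟩
  have hfin := hs lab L R h2 h3 h4 Pi ν hf hn
  have hcard : Fintype.card J = ∑ n ∈ range N, (C n).rank := by
    rw [Finset.sum_range]
    simp [J]
  rw [hcard] at hfin
  exact hfin

end Pool.Agent.KNM
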